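import Pool.Agent.H1.TC.Der

/-!
# Valuation rings, derivations and fields of sequences
-/

set_option autoImplicit false

namespace Pool.Agent.H1.DC

open Polynomial

/-- valuation rings of extensions -/
theorem exists_val {K E : Type} [Field K] [Field E] [Algebra K E] {x : E}
    (hx : Transcendental K x) :
    ∃ O : ValuationSubring E, (∀ c : K, algebraMap K E c ∈ O) ∧ x ∈ O.nonunits := by
  classical
  set A : Subring E := (Algebra.adjoin K {x}).toSubring with hA
  have hxA : x ∈ A := Algebra.subset_adjoin (Set.mem_singleton x)
  have hI : Ideal.span {(⟨x, hxA⟩ : A)} ≠ ⊤ := by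
    intro h
    rw [Ideal.eq_top_iff_one, Ideal.mem_span_singleton'] at h
    obtain ⟨⟨a, ha⟩, h⟩ := h
    have h1 : a * x = 1 := congrArg Subtype.val h
    have ha' : a ∈ Algebra.adjoin K {x} := ha
    rw [Algebra.adjoin_singleton_eq_range_aeval] at ha'
    obtain ⟨p, hp⟩ := ha'
    have hp : aeval x p = a := hp
    refine hx ⟨p * X - 1, ?_, ?_⟩
    · intro h0
      have := congrArg (Polynomial.eval 0) h0
      simp at this
    · rw [map_sub, map_mul, aeval_X, map_one, hp, h1, sub_self]
  obtain ⟨O, hO, hO'⟩ := Ideal.image_subset_nonunits_valuationSubring _ hI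
  refine ⟨O, fun c => hO ?_, hO' ⟨⟨x, hxA⟩, Ideal.subset_span rfl, rfl⟩⟩
  exact (Algebra.adjoin K {x}).algebraMap_mem c

open scoped IntermediateField.algebraAdjoinAdjoin in
/-- derivations of extensions -/
theorem exists_der_ne {K E : Type} [Field K] [CharZero K] [Field E] [Algebra K E] {x : E}
    (hx : Transcendental K x) : ∃ D : Derivation K E E, D x ≠ 0 := by
  classical
  have h1 : AlgebraicIndepOn K id ({x} : Set E) := by
    have := (algebraicIndependent_unique_type_iff (R := K)
      (x := fun i : ({x} : Set E) => (i : E))).2 (by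
        have : ((default : ({x} : Set E)) : E) = x := (default : ({x} : Set E)).2
        rw [this]
        exact hx)
    exact this
  obtain ⟨t, ht, hb⟩ := exists_isTranscendenceBasis_superset h1
  have hxt : x ∈ t := ht rfl
  have : CharZero E := charZero_of_injective_algebraMap (algebraMap K E).injective
  have e := hb.1.aevalEquiv
  have hr : Set.range ((↑) : t → E) = t := Subtype.range_coe
  have : Algebra.IsAlgebraic (IntermediateField.adjoin K (Set.range ((↑) : t → E))) E := by
    have := hb.isAlgebraic_field
    exact this
  have : Algebra.FormallyEtale (Algebra.adjoin K (Set.range ((↑) : t → E)))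
      (IntermediateField.adjoin K (Set.range ((↑) : t → E))) :=
    .of_isLocalization (nonZeroDivisors _)
  have : Algebra.FormallyEtale (IntermediateField.adjoin K (Set.range ((↑) : t → E))) E :=
    Algebra.FormallyEtale.of_isSeparable _ E
  have : Algebra.FormallyEtale (Algebra.adjoin K (Set.range ((↑) : t → E))) E :=
    Algebra.FormallyEtale.comp _ (IntermediateField.adjoin K (Set.range ((↑) : t → E))) E
  -- the derivation of the polynomial ring
  set d0 : Derivation K (MvPolynomial t K) (MvPolynomial t K) :=
    MvPolynomial.pderiv (⟨x, hxt⟩ : t) with hd0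
  set S := Algebra.adjoin K (Set.range ((↑) : t → E)) with hS
  let f : MvPolynomial t K ≃ₐ[K] S := hb.1.aevalEquiv
  let d : Derivation K S S :=
    { toFun := fun s => f (d0 (f.symm s))
      map_add' := fun a b => by simp only [map_add]
      map_smul' := fun a b => by
        change f (d0 (f.symm (a • b))) = a • f (d0 (f.symm b))
        rw [map_smul f.symm, Derivation.map_smul, map_smul f]
      map_one_eq_zero' := by
        change f (d0 (f.symm 1)) = 0
        rw [map_one, Derivation.map_one_eq_zero, map_zero]
      leibniz' := fun a b => by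
        change f (d0 (f.symm (a * b))) = a • f (d0 (f.symm b)) + b • f (d0 (f.symm a))
        rw [map_mul, Derivation.leibniz, map_add, smul_eq_mul, smul_eq_mul, map_mul, map_mul,
          AlgEquiv.apply_symm_apply, AlgEquiv.apply_symm_apply, smul_eq_mul, smul_eq_mul] }
  obtain ⟨D, hD⟩ := Pool.Agent.H1.TC.exists_derivation (R := K) (S := S) (T := E) d
  refine ⟨D, ?_⟩
  have hfx : algebraMap S E (f (MvPolynomial.X ⟨x, hxt⟩)) = x := by
    have := hb.1.algebraMap_aevalEquiv (MvPolynomial.X ⟨x, hxt⟩)
    rw [MvPolynomial.aeval_X] at this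
    exact this
  have h2 := hD (f (MvPolynomial.X ⟨x, hxt⟩))
  rw [hfx] at h2
  rw [h2]
  change algebraMap S E (f (d0 (f.symm (f (MvPolynomial.X ⟨x, hxt⟩))))) ≠ 0
  rw [AlgEquiv.symm_apply_apply, hd0, MvPolynomial.pderiv_X_self, map_one, map_one]
  exact one_ne_zero

/-- over an algebraically closed field the elements killed by all derivations are constants -/
theorem mem_range_of_der {K E : Type} [Field K] [CharZero K] [IsAlgClosed K] [Field E]
    [Algebra K E] {x : E} (h : ∀ D : Derivation K E E, D x = 0) : ∃ c : K, algebraMap K E c = x := by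
  by_contra hx
  have h1 : Transcendental K x := by
    intro h2
    refine hx ?_
    have h3 : IsIntegral K x := h2.isIntegral
    obtain ⟨c, hc⟩ := minpoly.mem_range_of_degree_eq_one K x
      (IsAlgClosed.degree_eq_one_of_irreducible K (minpoly.irreducible h3))
    exact ⟨c, hc⟩
  obtain ⟨D, hD⟩ := exists_der_ne h1
  exact hD (h D)

/-- elements outside an algebraically closed field are transcendental -/
theorem transc {K E : Type} [Field K] [IsAlgClosed K] [Field E]
    [Algebra K E] {x : E} (h : ∀ c : K, algebraMap K E c ≠ x) : Transcendental K x := by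
  intro h2
  have h3 : IsIntegral K x := h2.isIntegral
  obtain ⟨c, hc⟩ := minpoly.mem_range_of_degree_eq_one K x
    (IsAlgClosed.degree_eq_one_of_irreducible K (minpoly.irreducible h3))
  exact h c hc

/-- **a field of sequences**: for every sequence of distinct elements of `K` there is an
extension, a quotient of the ring of sequences, in which it is not constant -/
theorem exists_seq (K : Type) [Field K] (a : ℕ → K) (ha : Function.Injective a) :
    ∃ (E : Type) (_ : Field E) (_ : Algebra K E) (π : (ℕ → K) →ₐ[K] E),
      Function.Surjective π ∧ ∀ c : K, algebraMap K E c ≠ π a := by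
  classical
  -- the ideal of the sequences with finite support
  let I : Ideal (ℕ → K) :=
    { carrier := {u | {n | u n ≠ 0}.Finite}
      add_mem' := by
        intro u v hu hv
        refine (hu.union hv).subset fun n hn => ?_
        by_contra h
        simp only [Set.mem_union, Set.mem_ofPred_eq, not_or, not_not] at h
        exact hn (by rw [Pi.add_apply, h.1, h.2, add_zero])
      zero_mem' := by simp
      smul_mem' := by
        intro u v hv
        refine hv.subset fun n hn h => hn ?_
        rw [smul_eq_mul, Pi.mul_apply, h, mul_zero] }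
  have hI : I ≠ ⊤ := by
    intro h
    have h1 : (1 : ℕ → K) ∈ I := h ▸ Submodule.mem_top
    have h2 : {n : ℕ | (1 : ℕ → K) n ≠ 0}.Finite := h1
    have h3 : {n : ℕ | (1 : ℕ → K) n ≠ 0} = Set.univ := by
      ext n
      simp
    rw [h3] at h2
    exact Set.infinite_univ h2
  obtain ⟨M, hM, hIM⟩ := Ideal.exists_le_maximal I hI
  let _ : Field ((ℕ → K) ⧸ M) := Ideal.Quotient.field M
  refine ⟨(ℕ → K) ⧸ M, inferInstance, inferInstance, Ideal.Quotient.mkₐ K M,
    Ideal.Quotient.mkₐ_surjective K M, fun c hc => ?_⟩
  have h1 : Ideal.Quotient.mk M (algebraMap K (ℕ → K) c) = Ideal.Quotient.mk M a := hc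
  rw [Ideal.Quotient.eq] at h1
  set u : ℕ → K := algebraMap K (ℕ → K) c - a with hu
  have hun : ∀ n, u n = c - a n := fun n => rfl
  have h2 : (1 : ℕ → K) - u * u⁻¹ ∈ I := by
    have hf : {n | a n = c}.Finite := by
      refine Set.Subsingleton.finite ?_
      intro m hm n hn
      exact ha (hm.trans hn.symm)
    refine hf.subset fun n hn => ?_
    by_contra hne
    refine hn ?_
    rw [Pi.sub_apply, Pi.mul_apply, Pi.inv_apply, Pi.one_apply, mul_inv_cancel₀, sub_self]
    rw [hun]
    exact sub_ne_zero.2 fun h => hne h.symm
  have h3 : (1 : ℕ → K) ∈ M := by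
    have := M.add_mem (hIM h2) (M.mul_mem_right u⁻¹ h1)
    rwa [sub_add_cancel] at this
  exact hM.ne_top ((Ideal.eq_top_iff_one M).2 h3)

end Pool.Agent.H1.DC
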