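import Pool.Agent.H1.DC.Gen
import Pool.Graph.R_pool_sql_team_seeded_3997aac3.Q35.TT.All1

/-!
# Chains of directions
-/

set_option autoImplicit false

open MvPolynomial Pool.Agent.Q35.TT Pool.Agent.Q224.TT Pool.Agent.Y720.MZ

namespace Pool.Agent.H1.DC

/-- the rational points which are not torsion in all directions (after `Q224.TT.cla`) -/
theorem cla2 (h1 : S_TAN) (h2 : S_TBN) (h3 : S_MOV) (h4 : S_TRS) (h5 : S_CLO) (h6 : S_SQF)
    (K : Type) [Field K] [NumberField K] (L : Type) [NontriviallyNormedField L] [CompleteSpace L]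
    (σ : K →+* L) (hσ : DenseRange σ) (n : ℕ) (f : MvPolynomial (Fin n) K)
    (hf : ∀ j, f.degreeOf j ≤ 4) (hsm : SmoothN f) (hfin : FinSpec f) (z : Fin n → K) (w : K)
    (hw : w ≠ 0) (hwz : w ^ 2 = eval z f) (hi0 : ∃ i, ¬ TorN f z i) :
    ∃ J : Finset (Fin n), J.Nonempty ∧ SpecN f z J ∧ ∀ i ∈ J, ¬ Good σ f J z w i := by
  classical
  have hz : eval z f ≠ 0 := by
    rw [← hwz]
    exact pow_ne_zero 2 hw
  have : Infinite K := CharZero.infinite K
  -- a maximal `J`
  obtain ⟨i0, hi0⟩ := hi0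
  have hfull0 := h3 K L σ hσ n f hf z w i0 hw hwz hi0
  obtain ⟨J, hJmem, hJmax⟩ := Finset.exists_max_image
    (Finset.univ.filter (fun J : Finset (Fin n) => J.Nonempty ∧ Full σ f J z w)) Finset.card
    ⟨{i0}, Finset.mem_filter.2 ⟨Finset.mem_univ _, Finset.singleton_nonempty _, hfull0⟩⟩
  obtain ⟨-, hJne, hJfull⟩ := Finset.mem_filter.1 hJmem
  have hgood : ∀ k, k ∉ J → Good σ f J z w k := by
    intro k hk
    have hnot : ¬ Full σ f (insert k J) z w := by
      intro hF
      have h7 := hJmax (insert k J) (Finset.mem_filter.2 ⟨Finset.mem_univ _, Finset.insert_nonempty _ _, hF⟩)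
      rw [Finset.card_insert_of_notMem hk] at h7
      omega
    by_contra hG
    apply hnot
    apply h4
    intro ε hε g hg
    unfold Good at hG
    push Not at hG
    obtain ⟨z', w', hn1, hn2, hn3, hn4⟩ := hG ε hε g hg
    refine ⟨z', w', hn1.1, hn1.2.1, hn1.2.2.1, hn1.2.2.2, hn2, ?_⟩
    exact h3 K L σ hσ n f hf z' w' k hn3 hn1.1 hn4
  -- the other directions
  set J' : Finset (Fin n) := Finset.univ.filter (fun i => ¬ Good σ f J z w i) with hJ'
  have hJ'J : J' ⊆ J := by
    intro i hi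
    by_contra hiJ
    exact (Finset.mem_filter.1 hi).2 (hgood i hiJ)
  have hgood' : ∀ k, k ∉ J' → Good σ f J z w k := by
    intro k hk
    by_contra hG
    exact hk (Finset.mem_filter.2 ⟨Finset.mem_univ _, hG⟩)
  have hchoose : ∀ k, ∃ (ε : ℝ) (g : MvPolynomial (Fin n) K), 0 < ε ∧ (∃ y, OnPl J z y ∧ eval y g ≠ 0) ∧
      (k ∉ J' → ∀ z' w', Near σ f J z w ε z' w' → eval z' g ≠ 0 → w' ≠ 0 → TorN f z' k) := by
    intro k
    by_cases hk : k ∈ J'
    · exact ⟨1, 1, one_pos, ⟨z, on_refl J z, by simp⟩, fun h => absurd hk h⟩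
    · obtain ⟨ε, hε, g, hg, h⟩ := hgood' k hk
      exact ⟨ε, g, hε, hg, fun _ => h⟩
  choose ε' g' hε' hg' htor' using hchoose
  obtain ⟨ε, hε, hε1⟩ : ∃ ε : ℝ, 0 < ε ∧ ∀ k, ε ≤ ε' k := by
    have : Nonempty (Fin n) := ⟨i0⟩
    obtain ⟨k0, hk0⟩ := Finite.exists_min ε'
    exact ⟨ε' k0, hε' k0, hk0⟩
  set g : MvPolynomial (Fin n) K := f * ∏ k : Fin n, g' k with hgdef
  have hgnv : ∃ y, OnPl J z y ∧ eval y g ≠ 0 :=
    nv_mul ⟨z, on_refl J z, hz⟩ (nv_prod Finset.univ g' (fun k _ => hg' k))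
  have htor : ∀ z' w', Near σ f J z w ε z' w' → eval z' g ≠ 0 → w' ≠ 0 ∧ ∀ k, k ∉ J' → TorN f z' k := by
    intro z' w' hn hg0
    rw [hgdef, map_mul, map_prod] at hg0
    have hf0 : eval z' f ≠ 0 := left_ne_zero_of_mul hg0
    have hp0 := right_ne_zero_of_mul hg0
    rw [Finset.prod_ne_zero_iff] at hp0
    have hw0 : w' ≠ 0 := by
      rintro rfl
      apply hf0
      rw [← hn.1]
      simp
    exact ⟨hw0, fun k hk => htor' k hk z' w' (hn.mono (hε1 k)) (hp0 k (Finset.mem_univ k)) hw0⟩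
  -- `J'` is not empty
  have hJ'ne : J'.Nonempty := by
    by_contra hempty
    rw [Finset.not_nonempty_iff_eq_empty] at hempty
    have hT := h1 K n f hf hsm
    obtain ⟨i1, hi1⟩ := hJne
    obtain ⟨z', w', hn, hn2⟩ := full_near hJfull hε
      (nv_mul hgnv (nv_prod hT.toFinset (fun t => X i1 - C (t i1)) (fun t _ => nv_lin hi1 (t i1))))
    rw [map_mul, map_prod] at hn2
    have hmem : z' ∈ hT.toFinset := by
      rw [Set.Finite.mem_toFinset]
      intro i
      exact (htor z' w' hn (left_ne_zero_of_mul hn2)).2 i (by rw [hempty]; simp)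
    have h8 := right_ne_zero_of_mul hn2
    rw [Finset.prod_ne_zero_iff] at h8
    apply h8 z' hmem
    simp
  -- the lines are special
  have hline : ∀ i ∈ J', ∀ k, k ∉ J' → ∀ y, OnPl J z y → eval y f ≠ 0 →
      ¬ ND (lc f (af y) i) (lc (pderiv k f) (af y) i) := by
    intro i hi k hk
    have hik : i ≠ k := fun h => hk (h ▸ hi)
    refine h5 K n f (pderiv k f) hf (fun j => (degreeOf_pderiv_le f k j).trans (hf j)) J z i
      {z' | ∃ w', Near σ f J z w ε z' w' ∧ eval z' g ≠ 0 ∧ ¬ TorN f z' i} ?_ ?_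
    · intro q hq
      have hnG : ¬ Good σ f J z w i := (Finset.mem_filter.1 hi).2
      unfold Good at hnG
      push Not at hnG
      obtain ⟨z', w', hn1, hn2, hn3, hn4⟩ := hnG ε hε (g * q) (nv_mul hgnv hq)
      rw [map_mul] at hn2
      exact ⟨z', ⟨w', hn1, left_ne_zero_of_mul hn2, hn4⟩, hn1.2.1, right_ne_zero_of_mul hn2⟩
    · rintro z' ⟨w', hn, hg0, hnt⟩ hon hND
      have hTB := h2 K n f hf z' i k hik hND
      obtain ⟨hw', -⟩ := htor z' w' hn hg0
      have hF := h3 K L σ hσ n f hf z' w' i hw' hn.1 hnt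
      obtain ⟨δ, hδ, hδ1⟩ := hn.shrink
      obtain ⟨z'', w'', hn', hn2'⟩ := full_near hF hδ (nv_mul (g := g) ⟨z', on_refl _ z', hg0⟩
        (nv_prod hTB.toFinset (fun t => X i - C t) (fun t _ => nv_lin (Finset.mem_singleton_self i) t)))
      rw [map_mul, map_prod] at hn2'
      have hnear := hδ1 {i} z'' w'' (Finset.singleton_subset_iff.2 (hJ'J hi)) hn'
      have htk := (htor z'' w'' hnear (left_ne_zero_of_mul hn2')).2 k hk
      have hupd : z'' = Function.update z' i (z'' i) := by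
        funext l
        by_cases hl : l = i
        · rw [hl, Function.update_self]
        · rw [Function.update_of_ne hl]
          exact hn'.2.1 l (by simpa using hl)
      have h8 := right_ne_zero_of_mul hn2'
      rw [Finset.prod_ne_zero_iff] at h8
      apply h8 (z'' i)
      · rw [Set.Finite.mem_toFinset]
        change TorN f (Function.update z' i (z'' i)) k
        rw [← hupd]
        exact htk
      · simp
  have hspec : ∀ y, OnPl J z y → eval y f ≠ 0 → SpecN f y J' := by
    intro y hy hy0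
    refine h6 K n f hf hsm J' y hJ'ne hy0 ?_
    intro i hi k hk y' hy' hy'0
    exact hline i hi k hk y' (on_trans hJ'J hy hy') hy'0
  -- `J' = J`
  have hJJ : J' = J := by
    by_contra hne
    obtain ⟨j, hj, hj'⟩ := Finset.exists_of_ssubset (lt_of_le_of_ne hJ'J hne)
    have hJ'u : J' ≠ Finset.univ := fun h => hj' (by rw [h]; exact Finset.mem_univ j)
    have hfinite := hfin J' hJ'ne hJ'u
    have hinf := fin_zero z j f hz
    apply hinf
    have hmaps : Set.MapsTo (fun t : K => {y | OnPl J' (Function.update z j t) y})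
        {t : K | eval (Function.update z j t) f ≠ 0}
        {P : Set (Fin n → K) | ∃ z, eval z f ≠ 0 ∧ SpecN f z J' ∧ P = {y | OnPl J' z y}} := by
      intro t ht
      exact ⟨Function.update z j t, ht, hspec _ (on_update J z hj t) ht, rfl⟩
    refine Set.Finite.of_injOn hmaps ?_ hfinite
    intro t _ t' _ htt
    have h9 : Function.update z j t ∈ {y | OnPl J' (Function.update z j t') y} := by
      have h10 : Function.update z j t ∈ {y | OnPl J' (Function.update z j t) y} := on_refl _ _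
      have h11 : {y | OnPl J' (Function.update z j t) y} = {y | OnPl J' (Function.update z j t') y} := htt
      rw [h11] at h10
      exact h10
    have h12 : (Function.update z j t) j = (Function.update z j t') j := h9 j hj'
    rw [Function.update_self, Function.update_self] at h12
    exact h12
  have h13 := hspec z (on_refl J z) hz
  rw [hJJ] at h13
  refine ⟨J, hJne, h13, fun i hi => ?_⟩
  rw [← hJJ] at hi
  exact (Finset.mem_filter.1 hi).2


section chain

variable {K : Type} [Field K] {n : ℕ}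

/-- the directions of `J` can be ordered such that each of them is not torsion at a rational point
which differs from `z` only in the preceding directions -/
def Chn (f : MvPolynomial (Fin n) K) (z : Fin n → K) (J : Finset (Fin n)) : Prop :=
  ∃ r : Fin n → ℕ, ∀ k ∈ J, ∃ (y : Fin n → K) (w : K), OnPl (J.filter fun j => r j < r k) z y ∧
    w ≠ 0 ∧ w ^ 2 = eval y f ∧ dcl f y k ≠ 0 ∧ ¬ TorN f y k

lemma chn_prepend {f : MvPolynomial (Fin n) K} {z' z'' : Fin n → K} {w'' : K} {k : Fin n}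
    {J : Finset (Fin n)} (h : Chn f z' J) (hz : ∀ l, l ≠ k → z'' l = z' l) (hw : w'' ≠ 0)
    (hw2 : w'' ^ 2 = eval z'' f) (hd : dcl f z'' k ≠ 0) (hT : ¬ TorN f z'' k) :
    Chn f z'' (insert k J) := by
  classical
  obtain ⟨r, hr⟩ := h
  refine ⟨fun l => if l = k then 0 else r l + 1, fun i hi => ?_⟩
  by_cases hik : i = k
  · refine ⟨z'', w'', fun _ _ => rfl, hw, hw2, ?_, ?_⟩
    · rw [hik]
      exact hd
    · rw [hik]
      exact hT
  · have hiJ : i ∈ J := (Finset.mem_insert.1 hi).resolve_left hik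
    obtain ⟨y, w, h1, h2, h3, h4, h5⟩ := hr i hiJ
    refine ⟨y, w, fun l hl => ?_, h2, h3, h4, h5⟩
    rw [Finset.mem_filter, not_and] at hl
    have hlk : l ≠ k := by
      intro hlk
      refine hl (Finset.mem_insert.2 (Or.inl hlk)) ?_
      simp only [if_pos hlk, if_neg hik]
      omega
    rw [hz l hlk]
    refine h1 l fun hl' => ?_
    rw [Finset.mem_filter] at hl'
    refine hl (Finset.mem_insert_of_mem hl'.1) ?_
    simp only [if_neg hlk, if_neg hik]
    omega

lemma chn_first {f : MvPolynomial (Fin n) K} {z : Fin n → K} {J : Finset (Fin n)}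
    (h : Chn f z J) (hJ : J.Nonempty) : ∃ k ∈ J, ¬ TorN f z k := by
  obtain ⟨r, hr⟩ := h
  obtain ⟨k, hk, hmin⟩ := Finset.exists_min_image J r hJ
  obtain ⟨y, w, h1, -, -, -, h5⟩ := hr k hk
  refine ⟨k, hk, ?_⟩
  have : y = z := by
    funext l
    refine h1 l fun hl => ?_
    rw [Finset.mem_filter] at hl
    have := hmin l hl.1
    omega
  rwa [this] at h5

/-- chains of directions at near points -/
def FullC {L : Type} [NontriviallyNormedField L] (σ : K →+* L) (f : MvPolynomial (Fin n) K)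
    (J : Finset (Fin n)) (z : Fin n → K) (w : K) : Prop :=
  ∀ ε : ℝ, 0 < ε → ∀ g : MvPolynomial (Fin n) K, (∃ y, OnPl J z y ∧ eval y g ≠ 0) →
    ∃ z' w', Near σ f J z w ε z' w' ∧ eval z' g ≠ 0 ∧ w' ≠ 0 ∧ Chn f z' J

lemma dcl_update (f : MvPolynomial (Fin n) K) (z : Fin n → K) (i : Fin n) (t : K) :
    dcl f (Function.update z i t) i = dcl f z i := by
  unfold dcl
  rw [Pool.Agent.Q26.TT.lc_update]

end chain

section number

variable {K : Type} [Field K] [NumberField K] {n : ℕ}

/-- only finitely many rational points of a curve of genus one are torsion in its direction -/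
lemma fin_tor {f : MvPolynomial (Fin n) K} (hf : ∀ j, f.degreeOf j ≤ 4) {z : Fin n → K}
    {i : Fin n} (hd : dcl f z i ≠ 0) :
    {t : K | ∃ w : K, w ≠ 0 ∧ w ^ 2 = eval (Function.update z i t) f ∧
      TorN f (Function.update z i t) i}.Finite := by
  refine (Pool.Agent.Q68.TT.Sal.tor_finite (lc f (af z) i) hd).subset ?_
  rintro t ⟨w, hw, hw2, N, hN, hT⟩
  rw [Pool.Agent.Q26.TT.lc_update, Function.update_self] at hT
  refine ⟨w, N, hN, ?_⟩
  have h1 := (tws2 K (lc f (af z) i) 1 t w N one_ne_zero).2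
  simp only [one_mul] at h1
  exact h1 ⟨hw, by rw [hw2, Pool.Agent.Q192.TT.bq_lc f hf], hT⟩

/-- moving along a curve of genus one -/
lemma mv {L : Type} [NontriviallyNormedField L] [CompleteSpace L] {σ : K →+* L}
    (hσ : DenseRange σ) {f : MvPolynomial (Fin n) K} (hf : ∀ j, f.degreeOf j ≤ 4) {z : Fin n → K}
    {w : K} {i : Fin n} (hw : w ≠ 0) (hw2 : w ^ 2 = eval z f) (hT : ¬ TorN f z i)
    (hd : dcl f z i ≠ 0) (ε : ℝ) (hε : 0 < ε) (g : MvPolynomial (Fin n) K)
    (hg : ∃ y, OnPl {i} z y ∧ eval y g ≠ 0) :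
    ∃ z' w', Near σ f {i} z w ε z' w' ∧ eval z' g ≠ 0 ∧ w' ≠ 0 ∧ ¬ TorN f z' i ∧
      dcl f z' i ≠ 0 := by
  classical
  have : Infinite K := CharZero.infinite K
  have hz : eval z f ≠ 0 := by
    rw [← hw2]
    exact pow_ne_zero 2 hw
  have hF := mov2 K L σ hσ n f hf z w i hw hw2 hT
  have hTf := fin_tor hf hd
  obtain ⟨z', w', hn, hn2⟩ := full_near hF hε (nv_mul hg (nv_mul (g := f) ⟨z, on_refl _ z, hz⟩
    (nv_prod hTf.toFinset (fun t => X i - C t)
      (fun t _ => nv_lin (Finset.mem_singleton_self i) t))))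
  rw [map_mul, map_mul] at hn2
  have hg' := left_ne_zero_of_mul hn2
  have hf' := left_ne_zero_of_mul (right_ne_zero_of_mul hn2)
  have hp := right_ne_zero_of_mul (right_ne_zero_of_mul hn2)
  rw [map_prod, Finset.prod_ne_zero_iff] at hp
  have hw' : w' ≠ 0 := by
    rintro rfl
    apply hf'
    rw [← hn.1]
    simp
  have hupd : z' = Function.update z i (z' i) := by
    funext l
    by_cases hl : l = i
    · rw [hl, Function.update_self]
    · rw [Function.update_of_ne hl]
      exact hn.2.1 l (by simpa using hl)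
  refine ⟨z', w', hn, hg', hw', fun h => ?_, ?_⟩
  · refine hp (z' i) ?_ (by simp)
    rw [Set.Finite.mem_toFinset]
    refine ⟨w', hw', ?_, ?_⟩
    · rw [← hupd]
      exact hn.1
    · rw [← hupd]
      exact h
  · rw [hupd, dcl_update]
    exact hd

lemma fullC_single {L : Type} [NontriviallyNormedField L] [CompleteSpace L] {σ : K →+* L}
    (hσ : DenseRange σ) {f : MvPolynomial (Fin n) K} (hf : ∀ j, f.degreeOf j ≤ 4) {z : Fin n → K}
    {w : K} {i : Fin n} (hw : w ≠ 0) (hw2 : w ^ 2 = eval z f) (hT : ¬ TorN f z i)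
    (hd : dcl f z i ≠ 0) : FullC σ f {i} z w := by
  intro ε hε g hg
  obtain ⟨z', w', h1, h2, h3, h4, h5⟩ := mv hσ hf hw hw2 hT hd ε hε g hg
  refine ⟨z', w', h1, h2, h3, fun _ => 0, fun k hk => ?_⟩
  rw [Finset.mem_singleton] at hk
  subst hk
  exact ⟨z', w', fun _ _ => rfl, h3, h1.1, h5, h4⟩

/-- one more direction -/
lemma trsC {L : Type} [NontriviallyNormedField L] [CompleteSpace L] {σ : K →+* L}
    (hσ : DenseRange σ) {f : MvPolynomial (Fin n) K} (hf : ∀ j, f.degreeOf j ≤ 4)
    {J : Finset (Fin n)} {k : Fin n} {z : Fin n → K} {w : K}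
    (hyp : ∀ ε : ℝ, 0 < ε → ∀ g : MvPolynomial (Fin n) K, (∃ y, OnPl J z y ∧ eval y g ≠ 0) →
      ∃ z' w', Near σ f J z w ε z' w' ∧ eval z' g ≠ 0 ∧ w' ≠ 0 ∧ Chn f z' J ∧ ¬ TorN f z' k ∧
        dcl f z' k ≠ 0) : FullC σ f (insert k J) z w := by
  classical
  intro ε hε g hg
  by_cases hk : k ∈ J
  · rw [Finset.insert_eq_of_mem hk] at hg ⊢
    obtain ⟨z', w', h1, h2, h3, h4, -, -⟩ := hyp ε hε g hg
    exact ⟨z', w', h1, h2, h3, h4⟩
  · obtain ⟨y, hy, hyg⟩ := hg
    obtain ⟨z', w', hn, h5, h6, h7, h8, h9⟩ := hyp (ε / 2) (half_pos hε)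
      (bind₁ (fun l => if l = k then C (y k) else X l) g)
      ⟨Function.update y k (z k), by
        intro l hl
        by_cases h : l = k
        · subst h
          rw [Function.update_self]
        · rw [Function.update_of_ne h]
          exact hy l (by
            rw [Finset.mem_insert]
            rintro (h' | h')
            · exact h h'
            · exact hl h'), by
        rw [Pool.Agent.Q65.TT.eval_sub, Function.update_idem, Function.update_eq_self]
        exact hyg⟩
    rw [Pool.Agent.Q65.TT.eval_sub] at h5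
    obtain ⟨z'', w'', hn', e5, e6, e7, e8⟩ := mv hσ hf h6 hn.1 h8 h9 (ε / 2) (half_pos hε) g
      ⟨Function.update z' k (y k), by
        intro l hl
        rw [Finset.mem_singleton] at hl
        rw [Function.update_of_ne hl], h5⟩
    refine ⟨z'', w'', ⟨hn'.1, ?_, ?_, ?_⟩, e5, e6, ?_⟩
    · intro l hl
      rw [Finset.mem_insert, not_or] at hl
      rw [hn'.2.1 l (by rw [Finset.mem_singleton]; exact hl.1), hn.2.1 l hl.2]
    · intro l
      have := norm_sub_le_norm_sub_add_norm_sub (σ (z'' l)) (σ (z' l)) (σ (z l))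
      linarith [hn'.2.2.1 l, hn.2.2.1 l]
    · have := norm_sub_le_norm_sub_add_norm_sub (σ w'') (σ w') (σ w)
      linarith [hn'.2.2.2, hn.2.2.2]
    · exact chn_prepend h7 (fun l hl => hn'.2.1 l (by rw [Finset.mem_singleton]; exact hl)) e6
        hn'.1 e8 e7

end number

end Pool.Agent.H1.DC
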