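import Pool.Agent.H1.DC.Chain

/-!
# Rational points near which the chains of directions fill a special plane
-/

set_option autoImplicit false

open MvPolynomial Pool.Agent.Q35.TT Pool.Agent.Q224.TT Pool.Agent.Y720.MZ

namespace Pool.Agent.H1.DC

/-- the lines of a special plane are special -/
lemma specND {K : Type} [Field K] [CharZero K] {n : ℕ} {f : MvPolynomial (Fin n) K}
    (hf : ∀ j, f.degreeOf j ≤ 4) {z : Fin n → K} {J : Finset (Fin n)} (hs : SpecN f z J)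
    {i k : Fin n} (hi : i ∈ J) (hk : k ∉ J) {y : Fin n → K} (hy : OnPl J z y) :
    ¬ ND (lc f (af y) i) (lc (pderiv k f) (af y) i) := by
  have : Infinite K := CharZero.infinite K
  obtain ⟨c, hc⟩ := hs k hk
  have hev : ∀ (a : Fin 5 → K) (t : K), (pq a).eval t = bq a ![1, t] := by
    intro a t
    rw [Pool.Agent.Q149.TT.pq_eq, eval_qpol]
    simp only [bq, Matrix.cons_val_zero, Matrix.cons_val_one]
    ring
  have hdk : ∀ j, (pderiv k f).degreeOf j ≤ 4 := fun j => (degreeOf_pderiv_le f k j).trans (hf j)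
  have hpq : pq (lc (pderiv k f) (af y) i) = Polynomial.C c * pq (lc f (af y) i) := by
    refine Polynomial.funext fun t => ?_
    rw [Polynomial.eval_mul, Polynomial.eval_C, hev, hev, Pool.Agent.Q192.TT.bq_lc _ hdk,
      Pool.Agent.Q192.TT.bq_lc _ hf]
    refine hc _ fun l hl => ?_
    have hli : l ≠ i := fun h => hl (h ▸ hi)
    rw [Function.update_of_ne hli]
    exact hy l hl
  have hdeg : ∀ a : Fin 5 → K, (pq a).natDegree ≤ 4 := fun a => by
    rw [Pool.Agent.Q149.TT.pq_eq]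
    unfold qpol
    compute_degree
  unfold Pool.Agent.Q35.TT.ND
  rw [hpq]
  push Not
  refine ⟨?_, ?_⟩
  · refine ⟨Polynomial.C c * (Polynomial.C c * pq (lc f (af y) i)), ?_⟩
    ring
  · have h1 : (Polynomial.C c * pq (lc f (af y) i)).natDegree ≤ (pq (lc f (af y) i)).natDegree :=
      Polynomial.natDegree_C_mul_le _ _
    have h2 := hdeg (lc f (af y) i)
    omega

/-- polynomials which vanish on the smaller special planes -/
lemma kill {K : Type} [Field K] {n : ℕ} {f : MvPolynomial (Fin n) K} (hfin : FinSpec f)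
    {J : Finset (Fin n)} (z : Fin n → K) (J₁ : Finset (Fin n)) (h1 : J₁.Nonempty) (h2 : J₁ ⊂ J)
    [Infinite K] :
    ∃ g : MvPolynomial (Fin n) K, (∃ y, OnPl J z y ∧ eval y g ≠ 0) ∧
      ∀ y, eval y f ≠ 0 → eval y g ≠ 0 → ¬ SpecN f y J₁ := by
  classical
  obtain ⟨j, hj, hj'⟩ := Finset.exists_of_ssubset h2
  have hJu : J₁ ≠ Finset.univ := fun h => hj' (by rw [h]; exact Finset.mem_univ j)
  have hF := hfin J₁ h1 hJu
  set v : Set (Fin n → K) → K := fun P => if h : P.Nonempty then h.some j else 0 with hv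
  refine ⟨∏ P ∈ hF.toFinset, (X j - C (v P)), nv_prod _ _ (fun P _ => nv_lin hj _), ?_⟩
  intro y hy hg hs
  rw [map_prod, Finset.prod_ne_zero_iff] at hg
  refine hg {y' | OnPl J₁ y y'} ?_ ?_
  · rw [Set.Finite.mem_toFinset]
    exact ⟨y, hy, hs, rfl⟩
  · have hne : ({y' | OnPl J₁ y y'} : Set (Fin n → K)).Nonempty := ⟨y, on_refl J₁ y⟩
    have hsome : hne.some j = y j := hne.some_mem j hj'
    have : v {y' | OnPl J₁ y y'} = y j := by
      rw [hv]
      simp only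
      rw [dif_pos hne, hsome]
    rw [map_sub, eval_X, eval_C, this, sub_self]

/-- **chains of directions near the rational points** -/
theorem claC {K : Type} [Field K] [NumberField K] {L : Type} [NontriviallyNormedField L]
    [CompleteSpace L] {σ : K →+* L} (hσ : DenseRange σ) {n : ℕ} {f : MvPolynomial (Fin n) K}
    (hf : ∀ j, f.degreeOf j ≤ 4) (hsm : SmoothN f) (hfin : FinSpec f)
    (hgen : ∀ (z : Fin n → K) (J : Finset (Fin n)), SpecN f z J → ∀ i ∈ J,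
      ∃ y, OnPl J z y ∧ eval y (dcP f i) ≠ 0)
    {z : Fin n → K} {w : K} (hw : w ≠ 0) (hwz : w ^ 2 = eval z f) (hi0 : ∃ i, ¬ TorN f z i) :
    ∃ J : Finset (Fin n), J.Nonempty ∧ SpecN f z J ∧ ∀ ε : ℝ, 0 < ε →
      ∃ z' w', Near σ f J z w ε z' w' ∧ w' ≠ 0 ∧ Chn f z' J := by
  classical
  have : Infinite K := CharZero.infinite K
  have hz : eval z f ≠ 0 := by
    rw [← hwz]
    exact pow_ne_zero 2 hw
  obtain ⟨J, hJ, hsp, hG⟩ := cla2 tan2 (tbn_of orn2) mov2 Pool.Agent.Q65.TT.trs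
    Pool.Agent.Q238.TT.clo Pool.Agent.Q224.TT.sqf K L σ hσ n f hf hsm hfin z w hw hwz hi0
  refine ⟨J, hJ, hsp, fun ε hε => ?_⟩
  obtain ⟨i₀, hi₀⟩ := hJ
  have hkill : ∀ J₁ : Finset (Fin n), ∃ g : MvPolynomial (Fin n) K,
      (∃ y, OnPl J z y ∧ eval y g ≠ 0) ∧ (J₁.Nonempty → J₁ ⊂ J →
        ∀ y, eval y f ≠ 0 → eval y g ≠ 0 → ¬ SpecN f y J₁) := by
    intro J₁
    by_cases h : J₁.Nonempty ∧ J₁ ⊂ J
    · obtain ⟨g, h1, h2⟩ := kill hfin z J₁ h.1 h.2
      exact ⟨g, h1, fun _ _ => h2⟩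
    · exact ⟨1, ⟨z, on_refl J z, by simp⟩, fun h1 h2 => absurd ⟨h1, h2⟩ h⟩
  choose κ hκ1 hκ2 using hkill
  set G : MvPolynomial (Fin n) K := f * ((∏ i ∈ J, dcP f i) * ∏ J₁ : Finset (Fin n), κ J₁) with hGd
  have hGnv : ∃ y, OnPl J z y ∧ eval y G ≠ 0 :=
    nv_mul ⟨z, on_refl J z, hz⟩ (nv_mul (nv_prod _ _ fun i hi => hgen z J hsp i hi)
      (nv_prod _ _ fun J₁ _ => hκ1 J₁))
  have hnG := hG i₀ hi₀
  unfold Good at hnG
  push Not at hnG
  obtain ⟨z', w', hn, hg, hw', hT⟩ := hnG ε hε G hGnv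
  rw [hGd, map_mul, map_mul, map_prod, map_prod] at hg
  have hz' : eval z' f ≠ 0 := left_ne_zero_of_mul hg
  have hdc : ∀ i ∈ J, eval z' (dcP f i) ≠ 0 :=
    Finset.prod_ne_zero_iff.1 (left_ne_zero_of_mul (right_ne_zero_of_mul hg))
  have hκ : ∀ J₁, eval z' (κ J₁) ≠ 0 := fun J₁ =>
    Finset.prod_ne_zero_iff.1 (right_ne_zero_of_mul (right_ne_zero_of_mul hg)) J₁
      (Finset.mem_univ J₁)
  have hfull0 : FullC σ f {i₀} z' w' :=
    fullC_single hσ hf hw' hn.1 hT (by rw [← eval_dcP]; exact hdc i₀ hi₀)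
  obtain ⟨J₁, hmem, hmax⟩ := Finset.exists_max_image
    (J.powerset.filter fun J₁ => J₁.Nonempty ∧ FullC σ f J₁ z' w') Finset.card
    ⟨{i₀}, Finset.mem_filter.2 ⟨Finset.mem_powerset.2 (Finset.singleton_subset_iff.2 hi₀),
      Finset.singleton_nonempty _, hfull0⟩⟩
  obtain ⟨hJ₁J, hJ₁ne, hJ₁⟩ := Finset.mem_filter.1 hmem
  rw [Finset.mem_powerset] at hJ₁J
  by_cases hJJ : J₁ = J
  · obtain ⟨δ, hδ, hδ1⟩ := hn.shrink
    obtain ⟨z'', w'', h1, -, h3, h4⟩ := hJ₁ δ hδ 1 ⟨z', on_refl _ z', by simp⟩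
    rw [hJJ] at h1 h4
    exact ⟨z'', w'', hδ1 J z'' w'' (Finset.Subset.refl J) h1, h3, h4⟩
  exfalso
  have hJ₁ss : J₁ ⊂ J := lt_of_le_of_ne hJ₁J hJJ
  obtain ⟨GC, hGC⟩ : ∃ GC : Fin n → Prop, GC = fun k => ∃ ε : ℝ, 0 < ε ∧
      ∃ g : MvPolynomial (Fin n) K, (∃ y, OnPl J₁ z' y ∧ eval y g ≠ 0) ∧
        ∀ z'' w'', Near σ f J₁ z' w' ε z'' w'' → eval z'' g ≠ 0 → w'' ≠ 0 → Chn f z'' J₁ →
          TorN f z'' k := ⟨_, rfl⟩
  have hgood : ∀ k ∈ J, k ∉ J₁ → GC k := by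
    intro k hkJ hk
    by_contra hcon
    rw [hGC] at hcon
    push Not at hcon
    have hF : FullC σ f (insert k J₁) z' w' := by
      refine trsC hσ hf fun ε hε g hg => ?_
      obtain ⟨z'', w'', h1, h2, h3, h4, h5⟩ := hcon ε hε (g * dcP f k)
        (nv_mul hg ⟨z', on_refl _ z', hdc k hkJ⟩)
      rw [map_mul] at h2
      refine ⟨z'', w'', h1, left_ne_zero_of_mul h2, h3, h4, h5, ?_⟩
      rw [← eval_dcP]
      exact right_ne_zero_of_mul h2
    have h7 := hmax (insert k J₁) (Finset.mem_filter.2 ⟨Finset.mem_powerset.2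
      (Finset.insert_subset hkJ hJ₁J), Finset.insert_nonempty _ _, hF⟩)
    rw [Finset.card_insert_of_notMem hk] at h7
    omega
  set J' : Finset (Fin n) := J₁.filter fun i => ¬ GC i with hJ'
  have hJ'J : J' ⊆ J₁ := Finset.filter_subset _ _
  have hgood' : ∀ k ∈ J, k ∉ J' → GC k := by
    intro k hkJ hk
    by_cases hk1 : k ∈ J₁
    · by_contra hcon
      exact hk (Finset.mem_filter.2 ⟨hk1, hcon⟩)
    · exact hgood k hkJ hk1
  have hchoose : ∀ k, ∃ (ε : ℝ) (g : MvPolynomial (Fin n) K), 0 < ε ∧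
      (∃ y, OnPl J₁ z' y ∧ eval y g ≠ 0) ∧ (k ∈ J → k ∉ J' → ∀ z'' w'',
        Near σ f J₁ z' w' ε z'' w'' → eval z'' g ≠ 0 → w'' ≠ 0 → Chn f z'' J₁ →
          TorN f z'' k) := by
    intro k
    by_cases hk : k ∈ J ∧ k ∉ J'
    · have hgk := hgood' k hk.1 hk.2
      rw [hGC] at hgk
      obtain ⟨ε, hε, g, hg, h⟩ := hgk
      exact ⟨ε, g, hε, hg, fun _ _ => h⟩
    · exact ⟨1, 1, one_pos, ⟨z', on_refl _ z', by simp⟩, fun h1 h2 => absurd ⟨h1, h2⟩ hk⟩
  choose ε' g' hε' hg' htor' using hchoose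
  obtain ⟨ε₁, hε₁, hε₁1⟩ : ∃ ε : ℝ, 0 < ε ∧ ∀ k, ε ≤ ε' k := by
    have : Nonempty (Fin n) := ⟨i₀⟩
    obtain ⟨k0, hk0⟩ := Finite.exists_min ε'
    exact ⟨ε' k0, hε' k0, hk0⟩
  set g : MvPolynomial (Fin n) K := f * ((∏ i ∈ J, dcP f i) * ∏ k : Fin n, g' k) with hgdef
  have hgnv : ∃ y, OnPl J₁ z' y ∧ eval y g ≠ 0 :=
    nv_mul ⟨z', on_refl _ z', hz'⟩ (nv_mul (nv_prod _ _ fun i hi => ⟨z', on_refl _ z', hdc i hi⟩)
      (nv_prod _ _ fun k _ => hg' k))
  have hgdc : ∀ y, eval y g ≠ 0 → ∀ i ∈ J, dcl f y i ≠ 0 := by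
    intro y hy i hi
    rw [hgdef, map_mul, map_mul, map_prod] at hy
    rw [← eval_dcP]
    exact Finset.prod_ne_zero_iff.1 (left_ne_zero_of_mul (right_ne_zero_of_mul hy)) i hi
  have htor : ∀ z'' w'', Near σ f J₁ z' w' ε₁ z'' w'' → eval z'' g ≠ 0 → w'' ≠ 0 →
      Chn f z'' J₁ → ∀ k ∈ J, k ∉ J' → TorN f z'' k := by
    intro z'' w'' hn'' hg0 hw'' hc k hkJ hk
    rw [hgdef, map_mul, map_mul, map_prod, map_prod] at hg0
    exact htor' k hkJ hk z'' w'' (hn''.mono (hε₁1 k)) (Finset.prod_ne_zero_iff.1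
      (right_ne_zero_of_mul (right_ne_zero_of_mul hg0)) k (Finset.mem_univ k)) hw'' hc
  have hJ'ne : J'.Nonempty := by
    by_contra hempty
    rw [Finset.not_nonempty_iff_eq_empty] at hempty
    obtain ⟨z'', w'', h1, h2, h3, h4⟩ := hJ₁ ε₁ hε₁ g hgnv
    obtain ⟨k, hk, hkT⟩ := chn_first h4 hJ₁ne
    exact hkT (htor z'' w'' h1 h2 h3 h4 k (hJ₁J hk) (by rw [hempty]; simp))
  -- the lines are special
  have hline : ∀ i ∈ J', ∀ k, k ∉ J' → ∀ y, OnPl J₁ z' y → eval y f ≠ 0 →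
      ¬ ND (lc f (af y) i) (lc (pderiv k f) (af y) i) := by
    intro i hi k hk
    have hiJ : i ∈ J := hJ₁J (hJ'J hi)
    by_cases hkJ : k ∈ J
    · have hik : i ≠ k := fun h => hk (h ▸ hi)
      refine Pool.Agent.Q238.TT.clo K n f (pderiv k f) hf
        (fun j => (degreeOf_pderiv_le f k j).trans (hf j)) J₁ z' i
        {z'' | ∃ w'', Near σ f J₁ z' w' ε₁ z'' w'' ∧ eval z'' g ≠ 0 ∧ w'' ≠ 0 ∧ Chn f z'' J₁ ∧
          ¬ TorN f z'' i} ?_ ?_
      · intro q hq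
        have hnG : ¬ GC i := (Finset.mem_filter.1 hi).2
        rw [hGC] at hnG
        push Not at hnG
        obtain ⟨z'', w'', hn1, hn2, hn3, hn4, hn5⟩ := hnG ε₁ hε₁ (g * q) (nv_mul hgnv hq)
        rw [map_mul] at hn2
        exact ⟨z'', ⟨w'', hn1, left_ne_zero_of_mul hn2, hn3, hn4, hn5⟩, hn1.2.1,
          right_ne_zero_of_mul hn2⟩
      · rintro z'' ⟨w'', hn'', hg0, hw'', hc'', hnt⟩ hon hND
        have hTB := (tbn_of orn2) K n f hf z'' i k hik hND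
        obtain ⟨δ, hδ, hδ1⟩ := hn''.shrink
        obtain ⟨z3, w3, hn3, hn32, hw3, hT3, hd3⟩ := mv hσ hf hw'' hn''.1 hnt
          (hgdc z'' hg0 i hiJ) δ hδ (g * ∏ t ∈ hTB.toFinset, (X i - C t))
          (nv_mul (g := g) ⟨z'', on_refl _ z'', hg0⟩ (nv_prod hTB.toFinset (fun t => X i - C t)
            (fun t _ => nv_lin (Finset.mem_singleton_self i) t)))
        rw [map_mul, map_prod] at hn32
        have hnear := hδ1 {i} z3 w3 (Finset.singleton_subset_iff.2 (hJ'J hi)) hn3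
        have hc3 : Chn f z3 J₁ := by
          have := chn_prepend hc'' (fun l hl => hn3.2.1 l (by simpa using hl)) hw3 hn3.1 hd3 hT3
          rwa [Finset.insert_eq_of_mem (hJ'J hi)] at this
        have htk := htor z3 w3 hnear (left_ne_zero_of_mul hn32) hw3 hc3 k hkJ hk
        have hupd : z3 = Function.update z'' i (z3 i) := by
          funext l
          by_cases hl : l = i
          · rw [hl, Function.update_self]
          · rw [Function.update_of_ne hl]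
            exact hn3.2.1 l (by simpa using hl)
        have h8 := right_ne_zero_of_mul hn32
        rw [Finset.prod_ne_zero_iff] at h8
        apply h8 (z3 i)
        · rw [Set.Finite.mem_toFinset]
          change TorN f (Function.update z'' i (z3 i)) k
          rw [← hupd]
          exact htk
        · simp
    · intro y hy _
      exact specND hf hsp hiJ hkJ (on_trans hJ₁J hn.2.1 hy)
  have hspec : SpecN f z' J' :=
    Pool.Agent.Q224.TT.sqf K n f hf hsm J' z' hJ'ne hz' fun i hi k hk y' hy' hy'0 =>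
      hline i hi k hk y' (on_trans hJ'J (on_refl _ z') hy') hy'0
  exact hκ2 J' hJ'ne (lt_of_le_of_lt hJ'J hJ₁ss) z' hz' (hκ J') hspec

end Pool.Agent.H1.DC
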