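import Pool.Agent.H1.DC.Fsn

/-!
# Smooth forms of multidegree `(4, …, 4)` have only finitely many special planes
-/

set_option autoImplicit false

open MvPolynomial Pool.Agent.Q35.TT Pool.Agent.Q182.TT.CHF

namespace Pool.Agent.H1.DC

/-- special planes over extensions -/
lemma spec_ext {k K : Type} [Field k] [Infinite k] [Field K] [Algebra k K] {n : ℕ}
    {F : MvPolynomial (Fin n × Fin 2) k} {J : Finset (Fin n)} {X₀ : Fin n × Fin 2 → k}
    (h : SpecF F X₀ J) : SpecF (map (algebraMap k K) F) (fun p => algebraMap k K (X₀ p)) J := by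
  intro j hj b
  obtain ⟨c, hc⟩ := h j hj b
  refine ⟨algebraMap k K c, fun Y hY => ?_⟩
  set φ := algebraMap k K
  have h1 : sb (RingHom.id k) J X₀ (pderiv (j, b) F) = C c * sb (RingHom.id k) J X₀ F := by
    refine MvPolynomial.funext fun y => ?_
    rw [map_mul, eval_C, eval_sb, eval_sb, eval₂_id, eval₂_id]
    exact hc _ fun i hi b' => by
      unfold mx
      rw [if_neg hi]
  have h2 : ∀ G : MvPolynomial (Fin n × Fin 2) k,
      eval₂ φ Y (sb (RingHom.id k) J X₀ G) = eval Y (map φ G) := by
    intro G
    rw [eval_map]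
    have : (eval₂Hom φ Y).comp (eval₂Hom (C.comp (RingHom.id k))
        (fun p : Fin n × Fin 2 => if p.1 ∈ J then X p else C (X₀ p))) = eval₂Hom φ Y := by
      refine ringHom_ext (fun a => ?_) (fun p => ?_)
      · simp
      · simp only [RingHom.coe_comp, Function.comp_apply, eval₂Hom_X']
        split_ifs with hp
        · rw [eval₂Hom_X']
        · rw [eval₂Hom_C, hY p.1 hp p.2]
    exact RingHom.congr_fun this G
  rw [pderiv_map, ← h2, ← h2, h1, eval₂_mul, eval₂_C]

/-- the main case -/
theorem seq_false {K : Type} [Field K] [CharZero K] [IsAlgClosed K] {n : ℕ}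
    {F : MvPolynomial (Fin n × Fin 2) K} (hF : Hom4 F)
    (hsm : ∀ x : Fin n × Fin 2 → K, (∀ j, ∃ b, x (j, b) ≠ 0) → ∃ p, eval x (pderiv p F) ≠ 0)
    {J : Finset (Fin n)} (hJ : J.Nonempty) (ε : Fin n → Fin 2) (z : ℕ → Fin n → K)
    (hz : ∀ i, eval (pt ε (z i)) F ≠ 0) (hs : ∀ i, SpecF F (pt ε (z i)) J) (k₀ : Fin n)
    (hk₀ : k₀ ∉ J) (hinj : Function.Injective fun i => z i k₀) : False := by
  classical
  obtain ⟨E, _, _, π, hπ, htr⟩ := exists_seq K _ hinj
  set Xt : Fin n × Fin 2 → (ℕ → K) := fun p i => pt ε (z i) p with hXt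
  set t : Fin n × Fin 2 → E := fun p => π (Xt p) with ht
  -- evaluation in the ring of sequences
  have hcomp : ∀ (Y : Fin n × Fin 2 → (ℕ → K)) (G : MvPolynomial (Fin n × Fin 2) K) (i : ℕ),
      aeval Y G i = eval (fun p => Y p i) G := by
    intro Y G i
    have := comp_aeval_apply Y (Pi.evalAlgHom K (fun _ : ℕ => K) i) G
    rw [Pi.evalAlgHom_apply] at this
    rw [this, aeval_eq_eval]
    rfl
  have hpi : ∀ (Y : Fin n × Fin 2 → (ℕ → K)) (G : MvPolynomial (Fin n × Fin 2) K),
      aeval (fun p => π (Y p)) G = π (aeval Y G) := fun Y G => (comp_aeval_apply Y π G).symm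
  -- the special plane
  have hsp : SpecF (ex E F) t J := by
    intro j hj b
    have h1 := fun i => hs i j hj b
    choose c hc using h1
    refine ⟨π c, fun Y hY => ?_⟩
    choose Y' hY' using fun p => hπ (Y p)
    have h2 : Y = fun p => π (mx J Y' Xt p) := by
      funext p
      unfold mx
      split_ifs with hp
      · exact (hY' p).symm
      · exact hY p.1 hp p.2
    rw [pderiv_map, eval_ex, eval_ex, h2, hpi, hpi, ← map_mul]
    congr 1
    funext i
    rw [Pi.mul_apply, hcomp, hcomp]
    exact hc i _ fun j' hj' b' => by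
      unfold mx
      rw [if_neg hj']
  -- a constant point at which the form does not vanish
  have hne : aeval t F ≠ 0 := by
    rw [ht, hpi]
    intro h0
    have h1 : aeval Xt F * (aeval Xt F)⁻¹ = 1 := by
      funext i
      rw [Pi.mul_apply, Pi.inv_apply, Pi.one_apply, hcomp]
      exact mul_inv_cancel₀ (hz i)
    have h2 := congrArg π h1
    rw [map_mul, h0, zero_mul, map_one] at h2
    exact zero_ne_one h2
  obtain ⟨Y₀, hY₀⟩ : ∃ Y₀ : Fin n × Fin 2 → K, aeval (mx J (cn E Y₀) t) F ≠ 0 := by
    by_contra hcon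
    push Not at hcon
    have h1 : sb (algebraMap K E) J t F = 0 := by
      refine funext_set (fun _ => Set.range (algebraMap K E))
        (fun _ => Set.infinite_range_of_injective (algebraMap K E).injective) fun y hy => ?_
      have h1 : ∀ p, ∃ c, algebraMap K E c = y p := fun p => hy p (Set.mem_univ p)
      choose Y hY using h1
      rw [map_zero, eval_sb]
      have : y = cn E Y := funext fun p => (hY p).symm
      rw [this]
      exact hcon Y
    have h2 := eval_sb (algebraMap K E) J t t F
    rw [h1, map_zero] at h2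
    have h3 : mx J t t = t := by
      funext p
      unfold mx
      split_ifs <;> rfl
    rw [h3] at h2
    exact hne (by rw [aeval_def]; exact h2.symm)
  set g := aeval (mx J (cn E Y₀) t) F with hg
  set x₀ : E := t (k₀, 1 - ε k₀) with hx₀
  have hx₀' : x₀ = π fun i => z i k₀ := by
    have hXk : Xt (k₀, 1 - ε k₀) = fun i => z i k₀ := by
      funext i
      simp only [hXt]
      unfold pt
      rw [if_neg (fin2_ne _)]
    rw [hx₀, ht]
    simp only
    rw [hXk]
  have hx₀t : ∀ c : K, algebraMap K E c ≠ x₀ := fun c => by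
    rw [hx₀']
    exact htr c
  have hx₀0 : x₀ ≠ 0 := fun h => hx₀t 0 (by rw [map_zero, h])
  have hone : ∀ j, t (j, ε j) = 1 := by
    intro j
    have : Xt (j, ε j) = 1 := by
      funext i
      simp only [hXt]
      unfold pt
      rw [if_pos rfl]
      rfl
    rw [ht]
    simp only
    rw [this, map_one]
  -- normalisation
  have norm : ∀ O : ValuationSubring E, (∀ c : K, algebraMap K E c ∈ O) → ∃ s : Fin n → E,
      (∀ j, s j ≠ 0 ∧ s j ∈ O) ∧ (x₀ ∉ O → s k₀ = x₀⁻¹) ∧
      (((∏ j, if j ∈ J then 1 else s j) ^ 4 * g ∈ O.nonunits) → False) := by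
    intro O hO
    set s : Fin n → E := fun j => if t (j, 1 - ε j) ∈ O then 1 else (t (j, 1 - ε j))⁻¹ with hsd
    have hsO : ∀ j, s j ∈ O := by
      intro j
      simp only [hsd]
      split_ifs with h
      · exact O.one_mem
      · exact (O.mem_or_inv_mem _).resolve_left h
    have hs0 : ∀ j, s j ≠ 0 := by
      intro j
      simp only [hsd]
      split_ifs with h
      · exact one_ne_zero
      · refine inv_ne_zero fun h0 => h ?_
        rw [h0]
        exact O.zero_mem
    refine ⟨s, fun j => ⟨hs0 j, hsO j⟩, fun h => ?_, fun h => ?_⟩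
    · simp only [hsd]
      rw [if_neg h]
    · have hmx : mx J (cn E Y₀) (fun p => s p.1 * t p) =
          fun p => (if p.1 ∈ J then 1 else s p.1) * mx J (cn E Y₀) t p := by
        funext p
        unfold mx
        split_ifs
        · rw [one_mul]
        · rfl
      have hval : aeval (mx J (cn E Y₀) fun p => s p.1 * t p) F =
          (∏ j, if j ∈ J then 1 else s j) ^ 4 * g := by
        rw [hmx, ← eval_ex]
        have := scale_F (hom4_ex (E := E) hF) (mx J (cn E Y₀) t) (fun j => if j ∈ J then 1 else s j)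
        rw [this, eval_ex]
      refine core hF hsm hJ (t := fun p => s p.1 * t p)
        ((spec_scale_iff (hom4_ex (E := E) hF) t s J hs0).2 hsp) O hO ?_ ?_ Y₀ ?_ ?_
      · intro p
        obtain ⟨j, b⟩ := p
        rcases fin2_cases b (ε j) with rfl | rfl
        · change s j * t (j, ε j) ∈ O
          rw [hone, mul_one]
          exact hsO j
        · change s j * t (j, 1 - ε j) ∈ O
          simp only [hsd]
          split_ifs with h
          · rw [one_mul]
            exact h
          · rw [inv_mul_cancel₀]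
            · exact O.one_mem
            · intro h0
              exact h (h0 ▸ O.zero_mem)
      · intro j
        by_cases h' : t (j, 1 - ε j) ∈ O
        · refine ⟨ε j, ?_⟩
          change s j * t (j, ε j) = 1
          simp only [hsd]
          rw [if_pos h', hone, mul_one]
        · refine ⟨1 - ε j, ?_⟩
          change s j * t (j, 1 - ε j) = 1
          simp only [hsd]
          rw [if_neg h', inv_mul_cancel₀]
          intro h0
          exact h' (h0 ▸ O.zero_mem)
      · rw [hval]
        refine mul_ne_zero (pow_ne_zero _ (Finset.prod_ne_zero_iff.2 fun j _ => ?_)) hY₀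
        split_ifs
        · exact one_ne_zero
        · exact hs0 j
      · rw [hval]
        exact h
  -- the first place
  have hx1 : Transcendental K x₀⁻¹ := transc fun c hc => hx₀t c⁻¹ (by
    rw [map_inv₀, hc, inv_inv])
  obtain ⟨O, hO, hxO⟩ := exists_val hx1
  obtain ⟨s, hs1, hs2, hs3⟩ := norm O hO
  have hxO' : x₀ ∉ O := ((O.inv_mem_nonunits_iff).1 hxO).resolve_left hx₀0
  set A := ∏ j, (if j ∈ J then (1 : E) else s j) with hA
  have hprod : ∀ (O' : ValuationSubring E) (s' : Fin n → E), (∀ j, s' j ∈ O') →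
      (∏ j, (if j ∈ J then (1 : E) else s' j)) ∈ O' := by
    intro O' s' h'
    refine prod_mem fun j _ => ?_
    split_ifs
    · exact O'.one_mem
    · exact h' j
  have hAn : A ∈ O.nonunits := by
    rw [hA, ← Finset.mul_prod_erase _ _ (Finset.mem_univ k₀), if_neg hk₀, hs2 hxO']
    rw [O.mem_nonunits_iff] at hxO ⊢
    rw [map_mul]
    refine mul_lt_one_of_lt_of_le hxO ?_
    rw [O.valuation_le_one_iff]
    refine prod_mem fun j _ => ?_
    split_ifs
    · exact O.one_mem
    · exact (hs1 j).2
  by_cases hgO : A ^ 4 * g ∈ O.nonunits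
  · exact hs3 hgO
  -- `g⁻¹` is not constant
  have hA4 : A ^ 4 ∈ O.nonunits := by
    rw [O.mem_nonunits_iff] at hAn ⊢
    rw [map_pow]
    exact pow_lt_one₀ zero_le hAn (by norm_num)
  have hA0 : A ≠ 0 := Finset.prod_ne_zero_iff.2 fun j _ => by
    split_ifs
    · exact one_ne_zero
    · exact (hs1 j).1
  have hgt : ∀ c : K, algebraMap K E c ≠ g := by
    intro c hc
    refine hgO ?_
    rw [O.mem_nonunits_iff] at hA4 ⊢
    rw [map_mul]
    refine mul_lt_one_of_lt_of_le hA4 ?_
    rw [O.valuation_le_one_iff, ← hc]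
    exact hO c
  obtain ⟨O', hO', hgO'⟩ := exists_val (transc hgt)
  obtain ⟨s', hs1', hs2', hs3'⟩ := norm O' hO'
  refine hs3' ?_
  rw [O'.mem_nonunits_iff] at hgO' ⊢
  rw [map_mul, mul_comm]
  refine mul_lt_one_of_lt_of_le hgO' ?_
  rw [O'.valuation_le_one_iff]
  exact pow_mem (hprod O' s' fun j => (hs1' j).2) 4

/-- **Finiteness of the set of special planes** -/
theorem finSpec {k : Type} [Field k] [CharZero k] {n : ℕ} {F : MvPolynomial (Fin n × Fin 2) k}
    (hF : Hom4 F) (hsm : SmoothF F) (ε : Fin n → Fin 2) : FinSpec (ch F ε) := by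
  classical
  intro J hJ _
  set S : Set (Fin n → k) := {z | eval z (ch F ε) ≠ 0 ∧ SpecN (ch F ε) z J} with hS
  by_contra hinf
  have h1 : ∃ k₀, k₀ ∉ J ∧ ¬ ((fun z : Fin n → k => z k₀) '' S).Finite := by
    by_contra hcon
    push Not at hcon
    refine hinf ?_
    have h2 : (Set.pi Set.univ fun j : Fin n =>
        if j ∈ J then ({0} : Set k) else (fun z : Fin n → k => z j) '' S).Finite := by
      refine Set.Finite.pi fun j => ?_
      split_ifs with hj
      · exact Set.finite_singleton 0
      · exact hcon j hj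
    refine (h2.image fun z' => {y | OnPl J z' y}).subset ?_
    rintro P ⟨z, hz, hz', rfl⟩
    refine ⟨fun j => if j ∈ J then 0 else z j, ?_, ?_⟩
    · intro j _
      by_cases hj : j ∈ J
      · simp only [if_pos hj]
        exact Set.mem_singleton 0
      · simp only [if_neg hj]
        exact ⟨z, ⟨hz, hz'⟩, rfl⟩
    · ext y
      constructor
      · intro h j hj
        have := h j hj
        simp only [if_neg hj] at this
        exact this
      · intro h j hj
        simp only [if_neg hj]
        exact h j hj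
  obtain ⟨k₀, hk₀, hk₀'⟩ := h1
  have hk₀'' : ((fun z : Fin n → k => z k₀) '' S).Infinite := hk₀'
  have e := hk₀''.natEmbedding
  have h3 : ∀ i, ∃ z ∈ S, z k₀ = e i := fun i => (e i).2
  choose z hzS hze using h3
  obtain ⟨_, _, hev, hspec, _⟩ := chf k n F hF ε
  have hKc : CharZero (AlgebraicClosure k) :=
    charZero_of_injective_algebraMap (algebraMap k (AlgebraicClosure k)).injective
  set K := AlgebraicClosure k
  set φ := algebraMap k K
  have hpt : ∀ i, pt ε (fun j => φ (z i j)) = fun p => φ (pt ε (z i) p) := by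
    intro i
    funext p
    unfold pt
    split_ifs
    · rw [map_one]
    · rfl
  refine seq_false (K := K) (F := map φ F) ?_ ?_ hJ ε (fun i j => φ (z i j)) ?_ ?_ k₀ hk₀ ?_
  · intro m hm j
    exact hF m (support_map_subset _ _ hm) j
  · intro x hx
    obtain ⟨p, hp⟩ := hsm x hx
    refine ⟨p, ?_⟩
    rw [pderiv_map, eval_map]
    exact hp
  · intro i h0
    rw [hpt, eval_map] at h0
    have h4 : eval₂ φ (fun p => φ (pt ε (z i) p)) F = φ (eval (pt ε (z i)) F) :=
      (eval₂_comp_left φ (RingHom.id k) (pt ε (z i)) F).symm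
    rw [h4] at h0
    exact (hzS i).1 (by rw [hev]; exact (map_eq_zero φ).1 h0)
  · intro i
    rw [hpt]
    exact spec_ext ((hspec (z i) J).1 (hzS i).2)
  · intro i j hij
    have h5 : z i k₀ = z j k₀ := φ.injective hij
    rw [hze, hze] at h5
    exact e.injective (Subtype.ext h5)

end Pool.Agent.H1.DC
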