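import Pool.Graph.R_pool_sql_team_seeded_3997aac3.Q182.TT.Chf
import Pool.Agent.H1.DC.Alg

/-!
# Forms of multidegree `(4, …, 4)` over extensions
-/

set_option autoImplicit false

open MvPolynomial Pool.Agent.Q35.TT

namespace Pool.Agent.H1.DC

/-- smoothness over all extensions of an algebraically closed field -/
theorem smooth_ext {K A : Type} [Field K] [IsAlgClosed K] [Field A] (φ : K →+* A) {n : ℕ}
    {F : MvPolynomial (Fin n × Fin 2) K}
    (hF : ∀ x : Fin n × Fin 2 → K, (∀ j, ∃ b, x (j, b) ≠ 0) → ∃ p, eval x (pderiv p F) ≠ 0)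
    (x : Fin n × Fin 2 → A) (hx : ∀ j, ∃ b, x (j, b) ≠ 0) : ∃ p, eval₂ φ x (pderiv p F) ≠ 0 := by
  classical
  by_contra hcon
  push Not at hcon
  choose β hβ using hx
  set I : Ideal (MvPolynomial (Fin n × Fin 2) K) := Ideal.span (Set.range fun p => pderiv p F)
    with hI
  set P : MvPolynomial (Fin n × Fin 2) K := ∏ j, X (j, β j) with hP
  have h1 : P ∈ vanishingIdeal K (zeroLocus K I) := by
    rw [mem_vanishingIdeal_iff]
    intro y hy
    rw [hI, zeroLocus_span] at hy
    have hy' : ∀ p, eval y (pderiv p F) = 0 := fun p => by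
      have := hy (pderiv p F) ⟨p, rfl⟩
      rwa [aeval_eq_eval] at this
    by_contra h
    rw [hP, map_prod] at h
    rw [← ne_eq, Finset.prod_ne_zero_iff] at h
    obtain ⟨p, hp⟩ := hF y fun j => ⟨β j, by
      have := h j (Finset.mem_univ j)
      rwa [aeval_X] at this⟩
    exact hp (hy' p)
  rw [vanishingIdeal_zeroLocus_eq_radical] at h1
  obtain ⟨N, hN⟩ := h1
  have h2 : ∀ G ∈ I, eval₂Hom φ x G = 0 := by
    intro G hG
    have : I ≤ RingHom.ker (eval₂Hom φ x) := by
      rw [hI, Ideal.span_le]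
      rintro _ ⟨p, rfl⟩
      exact hcon p
    exact this hG
  have h3 := h2 _ hN
  rw [map_pow, hP, map_prod] at h3
  have h4 : ∏ j, eval₂Hom φ x (X (j, β j)) ≠ 0 := by
    rw [Finset.prod_ne_zero_iff]
    intro j _
    rw [eval₂Hom_X']
    exact hβ j
  exact pow_ne_zero N h4 h3

/-- derivations and polynomials -/
lemma der_eval {K σ E : Type} [Fintype σ] [Field K] [Field E] [Algebra K E] (D : Derivation K E E)
    (y : σ → E) (G : MvPolynomial σ K) :
    D (aeval y G) = ∑ p, aeval y (pderiv p G) * D (y p) := by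
  classical
  induction G using MvPolynomial.induction_on with
  | C a =>
    rw [aeval_C, Derivation.map_algebraMap]
    symm
    refine Finset.sum_eq_zero fun p _ => ?_
    rw [pderiv_C, map_zero, zero_mul]
  | add f g hf hg =>
    simp only [map_add, hf, hg, add_mul, Finset.sum_add_distrib]
  | mul_X f i hf =>
    have h1 : ∀ p, aeval y (pderiv p (f * X i)) * D (y p) =
        y i * (aeval y (pderiv p f) * D (y p)) + (if p = i then aeval y f * D (y p) else 0) := by
      intro p
      rw [pderiv_mul, map_add, map_mul, map_mul, aeval_X, pderiv_X]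
      split_ifs with hp
      · rw [hp, Pi.single_eq_same, map_one]
        ring
      · rw [Pi.single_eq_of_ne (Ne.symm hp), map_zero]
        ring
    rw [Finset.sum_congr rfl fun p _ => h1 p, Finset.sum_add_distrib, ← Finset.mul_sum,
      Finset.sum_ite_eq' Finset.univ i, if_pos (Finset.mem_univ i), ← hf, map_mul, aeval_X,
      Derivation.leibniz, smul_eq_mul, smul_eq_mul]
    ring

/-- the point with the coordinates of `Y` in the directions of `J` and those of `t` in the others -/
def mx {A : Type} {n : ℕ} (J : Finset (Fin n)) (Y t : Fin n × Fin 2 → A) (p : Fin n × Fin 2) : A :=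
  if p.1 ∈ J then Y p else t p

/-- the substitution of constants -/
noncomputable def sb {K A : Type} [Field K] [CommRing A] (φ : K →+* A) {n : ℕ}
    (J : Finset (Fin n)) (t : Fin n × Fin 2 → A) (G : MvPolynomial (Fin n × Fin 2) K) :
    MvPolynomial (Fin n × Fin 2) A :=
  eval₂ (C.comp φ) (fun p => if p.1 ∈ J then X p else C (t p)) G

section sb

variable {K A : Type} [Field K] [CommRing A] (φ : K →+* A) {n : ℕ} (J : Finset (Fin n))
  (t : Fin n × Fin 2 → A)

lemma eval_sb (Y : Fin n × Fin 2 → A) (G : MvPolynomial (Fin n × Fin 2) K) :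
    eval Y (sb φ J t G) = eval₂ φ (mx J Y t) G := by
  have h : (eval Y).comp (eval₂Hom (C.comp φ) (fun p : Fin n × Fin 2 =>
      if p.1 ∈ J then X p else C (t p))) = eval₂Hom φ (mx J Y t) := by
    refine ringHom_ext (fun a => ?_) (fun p => ?_)
    · simp
    · simp only [RingHom.coe_comp, Function.comp_apply, eval₂Hom_X']
      unfold mx
      split_ifs <;> simp
  exact RingHom.congr_fun h G

lemma pderiv_sb (p : Fin n × Fin 2) (hp : p.1 ∈ J) (G : MvPolynomial (Fin n × Fin 2) K) :
    pderiv p (sb φ J t G) = sb φ J t (pderiv p G) := by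
  classical
  have hadd : ∀ f g, sb φ J t (f + g) = sb φ J t f + sb φ J t g := fun f g => by
    unfold sb
    rw [eval₂_add]
  have hmul : ∀ f g, sb φ J t (f * g) = sb φ J t f * sb φ J t g := fun f g => by
    unfold sb
    rw [eval₂_mul]
  have h1 : sb φ J t 1 = 1 := by
    unfold sb
    rw [eval₂_one]
  have h0 : sb φ J t 0 = 0 := by
    unfold sb
    rw [eval₂_zero]
  induction G using MvPolynomial.induction_on with
  | C a =>
    rw [pderiv_C, h0]
    have : sb φ J t (C a) = C (φ a) := by
      unfold sb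
      rw [eval₂_C]
      rfl
    rw [this, pderiv_C]
  | add f g hf hg => rw [hadd, map_add, map_add, hadd, hf, hg]
  | mul_X f i hf =>
    rw [hmul, pderiv_mul, pderiv_mul, hadd, hmul, hmul, hf]
    congr 1
    congr 1
    have hX : sb φ J t (X i) = if i.1 ∈ J then X i else C (t i) := by
      unfold sb
      rw [eval₂_X]
    rw [hX]
    rcases eq_or_ne p i with rfl | hpi
    · rw [if_pos hp, pderiv_X_self, pderiv_X_self, h1]
    · rw [pderiv_X_of_ne hpi.symm, h0]
      split_ifs
      · rw [pderiv_X_of_ne hpi.symm]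
      · rw [pderiv_C]

end sb

/-- the restriction to a line of a form -/
lemma quartic {K A : Type} [Field K] [CommRing A] (φ : K →+* A) {n : ℕ}
    {F : MvPolynomial (Fin n × Fin 2) K} (hF : Hom4 F) (y : Fin n × Fin 2 → A) (j : Fin n) :
    ∃ a : ℕ → A, ∀ x : Fin 2 → A, eval₂ φ (fun p => if p.1 = j then x p.2 else y p) F =
      ∑ i ∈ Finset.range 5, a i * (x 0 ^ (4 - i) * x 1 ^ i) := by
  classical
  refine ⟨fun i => ∑ m ∈ F.support with m (j, 1) = i, φ (F.coeff m) *
    ∏ p : Fin n × Fin 2, (if p.1 = j then 1 else y p) ^ m p, fun x => ?_⟩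
  have h1 : ∀ m ∈ F.support, φ (F.coeff m) *
      ∏ p : Fin n × Fin 2, (if p.1 = j then x p.2 else y p) ^ m p =
      (φ (F.coeff m) * ∏ p : Fin n × Fin 2, (if p.1 = j then 1 else y p) ^ m p) *
        (x 0 ^ (4 - m (j, 1)) * x 1 ^ m (j, 1)) := by
    intro m hm
    rw [mul_assoc]
    congr 1
    have h2 : ∀ p : Fin n × Fin 2, (if p.1 = j then x p.2 else y p) ^ m p =
        (if p.1 = j then 1 else y p) ^ m p * (if p.1 = j then x p.2 ^ m p else 1) := by
      intro p
      split_ifs
      · rw [one_pow, one_mul]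
      · rw [mul_one]
    rw [Finset.prod_congr rfl fun p _ => h2 p, Finset.prod_mul_distrib]
    congr 1
    rw [Fintype.prod_prod_type, Finset.prod_eq_single j]
    · simp only [if_true, Fin.prod_univ_two]
      have h4 := hF m hm j
      have h5 : 4 - m (j, 1) = m (j, 0) := by omega
      rw [h5]
    · intro i _ hij
      simp [hij]
    · intro h'
      exact absurd (Finset.mem_univ j) h'
  rw [eval₂_eq', Finset.sum_congr rfl h1]
  have h3 : ∀ m ∈ F.support, m (j, 1) ∈ Finset.range 5 := by
    intro m hm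
    have := hF m hm j
    rw [Finset.mem_range]
    omega
  rw [← Finset.sum_fiberwise_of_maps_to h3]
  refine Finset.sum_congr rfl fun i _ => ?_
  rw [Finset.sum_mul]
  refine Finset.sum_congr rfl fun m hm => ?_
  rw [(Finset.mem_filter.1 hm).2]

/-- at points where the form does not vanish no pair of coordinates vanishes -/
lemma pair_ne {K A : Type} [Field K] [CommRing A] (φ : K →+* A) {n : ℕ}
    {F : MvPolynomial (Fin n × Fin 2) K} (hF : Hom4 F) (y : Fin n × Fin 2 → A)
    (hy : eval₂ φ y F ≠ 0) (j : Fin n) : ∃ b, y (j, b) ≠ 0 := by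
  by_contra h
  push Not at h
  refine hy ?_
  rw [eval₂_eq']
  refine Finset.sum_eq_zero fun m hm => ?_
  have h1 := hF m hm j
  have h2 : m (j, 0) ≠ 0 ∨ m (j, 1) ≠ 0 := by omega
  rcases h2 with h2 | h2
  · rw [Finset.prod_eq_zero (Finset.mem_univ (j, (0 : Fin 2))), mul_zero]
    rw [h 0, zero_pow h2]
  · rw [Finset.prod_eq_zero (Finset.mem_univ (j, (1 : Fin 2))), mul_zero]
    rw [h 1, zero_pow h2]

/-- a binary quartic form over an algebraically closed field has a nontrivial zero -/
lemma quartic_zero {K : Type} [Field K] [IsAlgClosed K] (a : ℕ → K) :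
    ∃ x : Fin 2 → K, (∃ b, x b ≠ 0) ∧
      ∑ i ∈ Finset.range 5, a i * (x 0 ^ (4 - i) * x 1 ^ i) = 0 := by
  classical
  rcases eq_or_ne (a 4) 0 with h4 | h4
  · refine ⟨![0, 1], ⟨1, by simp⟩, ?_⟩
    simp [Finset.sum_range_succ, h4]
  · set P : Polynomial K := ∑ i ∈ Finset.range 5, Polynomial.C (a i) * Polynomial.X ^ i with hP
    have hc : P.coeff 4 = a 4 := by
      rw [hP]
      simp [Finset.sum_range_succ]
    have hd : P.degree ≠ 0 := by
      intro h
      have := Polynomial.coeff_eq_zero_of_degree_lt (p := P) (n := 4) (by rw [h]; norm_num)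
      exact h4 (hc ▸ this)
    obtain ⟨r, hr⟩ := IsAlgClosed.exists_root P hd
    refine ⟨![1, r], ⟨0, by simp⟩, ?_⟩
    have h1 : P.eval r = 0 := hr
    rw [hP, Polynomial.eval_finsetSum] at h1
    rw [← h1]
    refine Finset.sum_congr rfl fun i _ => ?_
    simp

end Pool.Agent.H1.DC
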