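import Pool.Agent.H1.DC.Frm

/-!
# The special planes of smooth forms of multidegree `(4, …, 4)`
-/

set_option autoImplicit false

open MvPolynomial Pool.Agent.Q35.TT

namespace Pool.Agent.H1.DC

section core

variable {K E : Type} [Field K] [CharZero K] [IsAlgClosed K] [Field E] [Algebra K E] {n : ℕ}

/-- the form over the extension -/
noncomputable abbrev ex (E : Type) [Field E] [Algebra K E] (F : MvPolynomial (Fin n × Fin 2) K) :
    MvPolynomial (Fin n × Fin 2) E := map (algebraMap K E) F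

omit [CharZero K] [IsAlgClosed K] in
lemma eval_ex (F : MvPolynomial (Fin n × Fin 2) K) (y : Fin n × Fin 2 → E) :
    eval y (ex E F) = aeval y F := by
  rw [eval_map, aeval_def]

omit [CharZero K] [IsAlgClosed K] in
lemma hom4_ex {F : MvPolynomial (Fin n × Fin 2) K} (hF : Hom4 F) : Hom4 (ex E F) := by
  intro m hm j
  exact hF m (support_map_subset _ _ hm) j

/-- constants -/
def cn (E : Type) [Field E] [Algebra K E] (Y : Fin n × Fin 2 → K) (p : Fin n × Fin 2) : E :=
  algebraMap K E (Y p)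

/-- the form on a special plane: values at constant points -/
lemma exists_M {F : MvPolynomial (Fin n × Fin 2) K} {J : Finset (Fin n)}
    {t : Fin n × Fin 2 → E} (hs : SpecF (ex E F) t J) (Y₀ : Fin n × Fin 2 → K)
    (hY₀ : aeval (mx J (cn E Y₀) t) F ≠ 0) (Y : Fin n × Fin 2 → K) :
    ∃ c : K, aeval (mx J (cn E Y) t) F = aeval (mx J (cn E Y₀) t) F * algebraMap K E c := by
  classical
  have h0 : ∀ p : Fin n × Fin 2, ∃ c : E, p.1 ∉ J → ∀ Y : Fin n × Fin 2 → E,
      aeval (mx J Y t) (pderiv p F) = c * aeval (mx J Y t) F := by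
    intro p
    by_cases hp : p.1 ∈ J
    · exact ⟨0, fun h => absurd hp h⟩
    · obtain ⟨c, hc⟩ := hs p.1 hp p.2
      refine ⟨c, fun _ Y => ?_⟩
      have h1 := hc (mx J Y t) fun j hj b => by
        unfold mx
        rw [if_neg hj]
      rw [pderiv_map, eval_ex, eval_ex] at h1
      exact h1
  choose c hc using h0
  have h1 : ∀ D : Derivation K E E, ∀ Y : Fin n × Fin 2 → K,
      D (aeval (mx J (cn E Y) t) F) = (∑ p : Fin n × Fin 2, if p.1 ∈ J then 0 else c p * D (t p)) *
        aeval (mx J (cn E Y) t) F := by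
    intro D Y
    rw [der_eval, Finset.sum_mul]
    refine Finset.sum_congr rfl fun p _ => ?_
    split_ifs with hp
    · have : mx J (cn E Y) t p = algebraMap K E (Y p) := by
        unfold mx cn
        rw [if_pos hp]
      rw [this, Derivation.map_algebraMap, mul_zero, zero_mul]
    · have : mx J (cn E Y) t p = t p := by
        unfold mx
        rw [if_neg hp]
      rw [this, hc p hp]
      ring
  have h2 : ∀ D : Derivation K E E,
      D (aeval (mx J (cn E Y) t) F / aeval (mx J (cn E Y₀) t) F) = 0 := by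
    intro D
    set u := aeval (mx J (cn E Y) t) F
    set v := aeval (mx J (cn E Y₀) t) F
    set θ := ∑ p : Fin n × Fin 2, if p.1 ∈ J then 0 else c p * D (t p)
    have hu : D u = θ * u := h1 D Y
    have hv : D v = θ * v := h1 D Y₀
    have h3 : u = v * (u / v) := by
      rw [mul_div_cancel₀ _ hY₀]
    have h4 : D u = v * D (u / v) + (u / v) * D v := by
      conv_lhs => rw [h3]
      rw [Derivation.leibniz, smul_eq_mul, smul_eq_mul]
    have h5 : (u / v) * D v = θ * u := by
      rw [hv]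
      calc u / v * (θ * v) = θ * (v * (u / v)) := by ring
        _ = θ * u := by rw [← h3]
    rw [h5, hu] at h4
    have h6 : v * D (u / v) = 0 := by
      linear_combination -h4
    exact (mul_eq_zero.1 h6).resolve_left hY₀
  obtain ⟨c', hc'⟩ := mem_range_of_der h2
  refine ⟨c', ?_⟩
  rw [hc', mul_div_cancel₀ _ hY₀]

/-- the degenerate plane -/
theorem core {F : MvPolynomial (Fin n × Fin 2) K} (hF : Hom4 F)
    (hsm : ∀ x : Fin n × Fin 2 → K, (∀ j, ∃ b, x (j, b) ≠ 0) → ∃ p, eval x (pderiv p F) ≠ 0)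
    {J : Finset (Fin n)} (hJ : J.Nonempty) {t : Fin n × Fin 2 → E} (hs : SpecF (ex E F) t J)
    (O : ValuationSubring E) (hO : ∀ c : K, algebraMap K E c ∈ O) (ht : ∀ p, t p ∈ O)
    (ht1 : ∀ j, ∃ b, t (j, b) = 1) (Y₀ : Fin n × Fin 2 → K)
    (hY₀ : aeval (mx J (cn E Y₀) t) F ≠ 0)
    (hg : aeval (mx J (cn E Y₀) t) F ∈ O.nonunits) : False := by
  classical
  obtain ⟨j₀, hj₀⟩ := hJ
  choose M hM using exists_M hs Y₀ hY₀
  -- a zero of `M`
  obtain ⟨l, hl⟩ := (Algebra.linearMap K E).exists_leftInverse_of_injective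
    (LinearMap.ker_eq_bot.2 (algebraMap K E).injective)
  have hl' : ∀ c : K, l (algebraMap K E c) = c := fun c => LinearMap.congr_fun hl c
  obtain ⟨a, ha⟩ := quartic (algebraMap K E) hF (mx J (cn E Y₀) t) j₀
  set g := aeval (mx J (cn E Y₀) t) F with hgdef
  have key : ∀ x : Fin 2 → K, M (fun p => if p.1 = j₀ then x p.2 else Y₀ p) =
      ∑ i ∈ Finset.range 5, l (a i / g) * (x 0 ^ (4 - i) * x 1 ^ i) := by
    intro x
    have h1 := hM (fun p => if p.1 = j₀ then x p.2 else Y₀ p)
    have h2 := ha (fun b => algebraMap K E (x b))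
    have h3 : mx J (cn E fun p => if p.1 = j₀ then x p.2 else Y₀ p) t =
        fun p => if p.1 = j₀ then algebraMap K E (x p.2) else mx J (cn E Y₀) t p := by
      funext p
      unfold mx cn
      by_cases hp : p.1 = j₀
      · have hpJ : p.1 ∈ J := by rw [hp]; exact hj₀
        simp only [if_pos hp, if_pos hpJ]
      · simp only [if_neg hp]
    rw [h3, aeval_def, h2] at h1
    have h4 : algebraMap K E (M fun p => if p.1 = j₀ then x p.2 else Y₀ p) =
        ∑ i ∈ Finset.range 5, (x 0 ^ (4 - i) * x 1 ^ i) • (a i / g) := by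
      apply mul_left_cancel₀ hY₀
      rw [← h1, Finset.mul_sum]
      refine Finset.sum_congr rfl fun i _ => ?_
      rw [Algebra.smul_def, map_mul, map_pow, map_pow]
      field_simp
    rw [← hl' (M _), h4, map_sum]
    refine Finset.sum_congr rfl fun i _ => ?_
    rw [map_smul, smul_eq_mul, mul_comm]
  obtain ⟨x, ⟨b₀, hb₀⟩, hx⟩ := quartic_zero fun i => l (a i / g)
  set Y₁ : Fin n × Fin 2 → K := fun p => if p.1 = j₀ then x p.2 else Y₀ p with hY₁
  have hM1 : M Y₁ = 0 := by
    rw [hY₁, key, hx]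
  have hY₁J : ∀ j ∈ J, ∃ b, Y₁ (j, b) ≠ 0 := by
    intro j hj
    by_cases hjj : j = j₀
    · refine ⟨b₀, ?_⟩
      simp only [hY₁]
      rw [if_pos hjj]
      exact hb₀
    · obtain ⟨b, hb⟩ := pair_ne (algebraMap K E) hF (mx J (cn E Y₀) t) hY₀ j
      refine ⟨b, ?_⟩
      simp only [hY₁]
      rw [if_neg hjj]
      intro h
      refine hb ?_
      unfold mx cn
      rw [if_pos hj, h, map_zero]
  -- the residue field
  let ι : K →+* O :=
    { toFun := fun c => ⟨algebraMap K E c, hO c⟩
      map_one' := Subtype.ext (map_one _)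
      map_mul' := fun a b => Subtype.ext (map_mul _ a b)
      map_zero' := Subtype.ext (map_zero _)
      map_add' := fun a b => Subtype.ext (map_add _ a b) }
  let κ := IsLocalRing.ResidueField O
  let ρ : O →+* κ := IsLocalRing.residue O
  let φ : K →+* κ := ρ.comp ι
  let tO : Fin n × Fin 2 → O := fun p => ⟨t p, ht p⟩
  let tκ : Fin n × Fin 2 → κ := fun p => ρ (tO p)
  have hval : ∀ (Y : Fin n × Fin 2 → K) (G : MvPolynomial (Fin n × Fin 2) K) (hG : aeval (mx J (cn E Y) t) G ∈ O),
      eval₂ φ (mx J (fun p => φ (Y p)) tκ) G = ρ ⟨aeval (mx J (cn E Y) t) G, hG⟩ := by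
    intro Y G hG
    have h1 : O.subtype (eval₂ ι (mx J (fun p => ι (Y p)) tO) G) = aeval (mx J (cn E Y) t) G := by
      rw [hom_eval₂, aeval_def]
      have e1 : O.subtype.comp ι = algebraMap K E := rfl
      have e2 : (fun i => O.subtype (mx J (fun p => ι (Y p)) tO i)) = mx J (cn E Y) t := by
        funext p
        unfold mx
        split_ifs <;> rfl
      rw [e1, e2]
    have h2 : ρ (eval₂ ι (mx J (fun p => ι (Y p)) tO) G) =
        eval₂ φ (mx J (fun p => φ (Y p)) tκ) G := by
      rw [hom_eval₂]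
      have e2 : (fun i => ρ (mx J (fun p => ι (Y p)) tO i)) = mx J (fun p => φ (Y p)) tκ := by
        funext p
        unfold mx
        split_ifs <;> rfl
      rw [e2]
    rw [← h2]
    congr 1
    exact Subtype.ext h1
  have hmem : ∀ (Y : Fin n × Fin 2 → K) (G : MvPolynomial (Fin n × Fin 2) K),
      aeval (mx J (cn E Y) t) G ∈ O := by
    intro Y G
    have h1 : O.subtype (eval₂ ι (mx J (fun p => ι (Y p)) tO) G) = aeval (mx J (cn E Y) t) G := by
      rw [hom_eval₂, aeval_def]
      have e1 : O.subtype.comp ι = algebraMap K E := rfl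
      have e2 : (fun i => O.subtype (mx J (fun p => ι (Y p)) tO i)) = mx J (cn E Y) t := by
        funext p
        unfold mx
        split_ifs <;> rfl
      rw [e1, e2]
    rw [← h1]
    exact Subtype.property _
  have hgO : (⟨g, hmem Y₀ F⟩ : O) ∈ IsLocalRing.maximalIdeal O := by
    obtain ⟨h, h'⟩ := (O.mem_nonunits_iff_exists_mem_maximalIdeal).1 hg
    exact h'
  have hρg : ρ ⟨g, hmem Y₀ F⟩ = 0 := (IsLocalRing.residue_eq_zero_iff _).2 hgO
  -- the form vanishes on the slice
  have hF0 : ∀ Y : Fin n × Fin 2 → K, eval₂ φ (mx J (fun p => φ (Y p)) tκ) F = 0 := by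
    intro Y
    rw [hval Y F (hmem Y F)]
    have : (⟨aeval (mx J (cn E Y) t) F, hmem Y F⟩ : O) = ⟨g, hmem Y₀ F⟩ * ι (M Y) :=
      Subtype.ext (hM Y)
    rw [this, map_mul, hρg, zero_mul]
  have hφ : Function.Injective φ := φ.injective
  have hsb : sb φ J tκ F = 0 := by
    refine funext_set (fun _ => Set.range φ) (fun _ => Set.infinite_range_of_injective hφ)
      fun y hy => ?_
    have h1 : ∀ p, ∃ c, φ c = y p := fun p => hy p (Set.mem_univ p)
    choose Y hY using h1
    rw [map_zero, eval_sb]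
    have : y = fun p => φ (Y p) := funext fun p => (hY p).symm
    rw [this]
    exact hF0 Y
  -- the singular point
  obtain ⟨p, hp⟩ := smooth_ext φ hsm (mx J (fun p => φ (Y₁ p)) tκ) fun j => by
    by_cases hj : j ∈ J
    · obtain ⟨b, hb⟩ := hY₁J j hj
      refine ⟨b, ?_⟩
      unfold mx
      rw [if_pos hj]
      exact (map_ne_zero φ).2 hb
    · obtain ⟨b, hb⟩ := ht1 j
      refine ⟨b, ?_⟩
      unfold mx
      rw [if_neg hj]
      have : tO (j, b) = 1 := Subtype.ext hb
      change ρ (tO (j, b)) ≠ 0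
      rw [this, map_one]
      exact one_ne_zero
  refine hp ?_
  by_cases hpJ : p.1 ∈ J
  · rw [← eval_sb, ← pderiv_sb φ J tκ p hpJ, hsb, map_zero, map_zero]
  · rw [hval Y₁ _ (hmem Y₁ _)]
    have h1 : aeval (mx J (cn E Y₁) t) (pderiv p F) = 0 := by
      obtain ⟨c, hc⟩ := hs p.1 hpJ p.2
      have h2 := hc (mx J (cn E Y₁) t) fun j hj b => by
        unfold mx
        rw [if_neg hj]
      rw [pderiv_map, eval_ex, eval_ex] at h2
      rw [hM Y₁, hM1, map_zero, mul_zero, mul_zero] at h2
      exact h2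
    have h2 : (⟨aeval (mx J (cn E Y₁) t) (pderiv p F), hmem Y₁ _⟩ : O) = 0 := Subtype.ext h1
    rw [h2, map_zero]

end core

end Pool.Agent.H1.DC
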