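import Pool.Agent.H1.DC.Fin
import Pool.Graph.R_pool_sql_team_seeded_3997aac3.Q149.TT.Spe
import Pool.Graph.R_pool_sql_team_seeded_3997aac3.Q26.TT.Ev
import Pool.Graph.R_pool_sql_team_seeded_3997aac3.Q224.TT.Res

/-!
# Generic smoothness of the restrictions to special planes
-/

set_option autoImplicit false

open MvPolynomial Pool.Agent.Q35.TT Pool.Agent.Q182.TT.CHF Pool.Agent.Y720.MZ

namespace Pool.Agent.H1.DC

/-- smoothness over all extensions -/
theorem smooth_all {k A : Type} [Field k] [Field A] (φ : k →+* A) {n : ℕ}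
    {F : MvPolynomial (Fin n × Fin 2) k} (hF : SmoothF F)
    (x : Fin n × Fin 2 → A) (hx : ∀ j, ∃ b, x (j, b) ≠ 0) : ∃ p, eval₂ φ x (pderiv p F) ≠ 0 := by
  classical
  by_contra hcon
  push Not at hcon
  choose β hβ using hx
  set I : Ideal (MvPolynomial (Fin n × Fin 2) k) := Ideal.span (Set.range fun p => pderiv p F)
    with hI
  set P : MvPolynomial (Fin n × Fin 2) k := ∏ j, X (j, β j) with hP
  have h1 : P ∈ vanishingIdeal k (zeroLocus (AlgebraicClosure k) I) := by
    rw [mem_vanishingIdeal_iff]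
    intro y hy
    rw [hI, zeroLocus_span] at hy
    have hy' : ∀ p, aeval y (pderiv p F) = 0 := fun p => hy (pderiv p F) ⟨p, rfl⟩
    by_contra h
    rw [hP, map_prod] at h
    rw [← ne_eq, Finset.prod_ne_zero_iff] at h
    obtain ⟨p, hp⟩ := hF y fun j => ⟨β j, by
      have := h j (Finset.mem_univ j)
      rwa [aeval_X] at this⟩
    exact hp (hy' p)
  rw [vanishingIdeal_zeroLocus_eq_radical] at h1
  obtain ⟨N, hN⟩ := h1
  have h2 : ∀ G ∈ I, eval₂Hom φ x G = 0 := by
    intro G hG
    have : I ≤ RingHom.ker (eval₂Hom φ x) := by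
      rw [hI, Ideal.span_le]
      rintro _ ⟨p, rfl⟩
      exact hcon p
    exact this hG
  have h3 := h2 _ hN
  rw [map_pow, hP, map_prod] at h3
  have h4 : ∏ j, eval₂Hom φ x (X (j, β j)) ≠ 0 := by
    rw [Finset.prod_ne_zero_iff]
    intro j _
    rw [eval₂Hom_X']
    exact hβ j
  exact pow_ne_zero N h4 h3

/-- a double root -/
theorem exists_double {Ω : Type} [Field Ω] [CharZero Ω] [IsAlgClosed Ω] (a : Fin 5 → Ω)
    (h : dc (a 0) (a 1) (a 2) (a 3) (a 4) = 0) :
    ∃ x : Fin 2 → Ω, x ≠ 0 ∧ bd a x 0 = 0 ∧ bd a x 1 = 0 := by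
  by_cases h34 : a 3 = 0 ∧ a 4 = 0
  · refine ⟨![0, 1], ?_, ?_, ?_⟩
    · intro h0
      have := congrFun h0 1
      simp at this
    · simp [bd, h34.1]
    · simp [bd, h34.2]
  · set p := qpol (a 0) (a 1) (a 2) (a 3) (a 4) with hp
    obtain ⟨c0, c1, c2, c3, c4⟩ := qpol_coeff (a 0) (a 1) (a 2) (a 3) (a 4)
    have hd : 3 ≤ p.natDegree := by
      by_cases h4 : a 4 = 0
      · have h3 : a 3 ≠ 0 := fun h3 => h34 ⟨h3, h4⟩
        exact Polynomial.le_natDegree_of_ne_zero (by rw [hp, c3]; exact h3)
      · have := Polynomial.le_natDegree_of_ne_zero (p := p) (n := 4) (by rw [hp, c4]; exact h4)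
        omega
    have hns : ¬ p.Separable := fun hs => dc_ne_zero hs hd h
    -- a common root
    have hg : ∃ t, p.IsRoot t ∧ (Polynomial.derivative p).IsRoot t := by
      by_contra hcon
      push Not at hcon
      refine hns ?_
      rw [Polynomial.Separable]
      have hp0 : p ≠ 0 := by
        intro h0
        rw [h0, Polynomial.natDegree_zero] at hd
        omega
      refine (Polynomial.isCoprime_iff_aeval_ne_zero_of_isAlgClosed Ω Ω p _).2 fun t => ?_
      by_contra h2
      push Not at h2
      refine hcon t ?_ ?_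
      · have := h2.1
        rwa [Polynomial.coe_aeval_eq_eval] at this
      · have := h2.2
        rwa [Polynomial.coe_aeval_eq_eval] at this
    obtain ⟨t, h1, h2⟩ := hg
    have e1 : a 0 + a 1 * t + a 2 * t ^ 2 + a 3 * t ^ 3 + a 4 * t ^ 4 = 0 := by
      have := h1
      rw [Polynomial.IsRoot.def, hp, qpol] at this
      simpa using this
    have e2 : a 1 + 2 * a 2 * t + 3 * a 3 * t ^ 2 + 4 * a 4 * t ^ 3 = 0 := by
      have := h2
      rw [Polynomial.IsRoot.def, hp, qpol] at this
      simp at this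
      linear_combination this
    refine ⟨![1, t], ?_, ?_, ?_⟩
    · intro h0
      have := congrFun h0 0
      simp at this
    · simp only [bd, Matrix.cons_val_zero, Matrix.cons_val_one]
      linear_combination 4 * e1 - t * e2
    · simp only [bd, Matrix.cons_val_zero, Matrix.cons_val_one]
      linear_combination e2

/-- the partial derivatives of the form -/
theorem pd_zero {K R : Type} [Field K] [Field R] [Algebra K R] {n : ℕ}
    {F : MvPolynomial (Fin n × Fin 2) K} (hF : Hom4 F) (ε : Fin n → Fin 2)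
    (x : Fin n → Fin 2 → R) (i : Fin n)
    (h0 : bd (lc (map (algebraMap K R) (ch F ε)) x i) (x i) 0 = 0)
    (h1 : bd (lc (map (algebraMap K R) (ch F ε)) x i) (x i) 1 = 0) (b : Fin 2) :
    aeval (pp ε x) (pderiv (i, b) F) = 0 := by
  have hdeg : ∀ m ∈ (map (algebraMap K R) (ch F ε)).support, m i ≤ 4 := by
    intro m hm
    obtain ⟨M, hM, rfl⟩ := mem_supp_ch _ ε hm
    exact (hom_red hF hM ε i).2
  rcases fin2_cases b (ε i) with hb | hb
  · rw [Pool.Agent.Q182.TT.CHF.bd_zero,
      Pool.Agent.Q182.TT.CHF.sum_lc hdeg x (fun k => ((4 - k : ℕ) : R) * x i 0 ^ (3 - k) * x i 1 ^ k),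
      sum_ch (algebraMap K R) F ε
      (fun m => mo m x i * (((4 - m i : ℕ) : R) * x i 0 ^ (3 - m i) * x i 1 ^ m i))] at h0
    rw [aeval_pderiv, ← h0]
    refine Finset.sum_congr rfl fun M hM => ?_
    congr 1
    obtain ⟨h1, h2⟩ := hom_red hF hM ε i
    rw [hb, h1, ← Finset.mul_prod_erase Finset.univ _ (Finset.mem_univ i)]
    have e1 : sh M (i, ε i) (i, ε i) = 3 - red ε M i := by
      rw [sh_self, h1]
      omega
    have e2 : sh M (i, ε i) (i, 1 - ε i) = red ε M i := by
      rw [sh_ne, red_apply]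
      intro h3
      exact fin2_ne (ε i) (congrArg Prod.snd h3).symm
    have e3 : ∏ j ∈ Finset.univ.erase i, (x j 0 ^ sh M (i, ε i) (j, ε j) *
        x j 1 ^ sh M (i, ε i) (j, 1 - ε j)) = mo (red ε M) x i := by
      unfold mo
      refine Finset.prod_congr rfl fun j hj => ?_
      have hji := Finset.ne_of_mem_erase hj
      have e4 : ∀ c, sh M (i, ε i) (j, c) = M (j, c) := fun c =>
        sh_ne M fun h3 => hji (congrArg Prod.fst h3).symm
      rw [e4, e4, (hom_red hF hM ε j).1, red_apply]
    rw [e1, e2, e3]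
    ring
  · rw [Pool.Agent.Q182.TT.CHF.bd_one,
      Pool.Agent.Q182.TT.CHF.sum_lc hdeg x (fun k => ((k : ℕ) : R) * x i 0 ^ (4 - k) * x i 1 ^ (k - 1)),
      sum_ch (algebraMap K R) F ε
      (fun m => mo m x i * (((m i : ℕ) : R) * x i 0 ^ (4 - m i) * x i 1 ^ (m i - 1)))] at h1
    rw [aeval_pderiv, ← h1]
    refine Finset.sum_congr rfl fun M hM => ?_
    congr 1
    obtain ⟨h1, h2⟩ := hom_red hF hM ε i
    rw [hb, ← Finset.mul_prod_erase Finset.univ _ (Finset.mem_univ i)]
    have e1 : sh M (i, 1 - ε i) (i, 1 - ε i) = red ε M i - 1 := by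
      rw [sh_self, red_apply]
    have e2 : sh M (i, 1 - ε i) (i, ε i) = 4 - red ε M i := by
      rw [sh_ne, h1]
      intro h3
      exact fin2_ne (ε i) (congrArg Prod.snd h3)
    have e3 : ∏ j ∈ Finset.univ.erase i, (x j 0 ^ sh M (i, 1 - ε i) (j, ε j) *
        x j 1 ^ sh M (i, 1 - ε i) (j, 1 - ε j)) = mo (red ε M) x i := by
      unfold mo
      refine Finset.prod_congr rfl fun j hj => ?_
      have hji := Finset.ne_of_mem_erase hj
      have e4 : ∀ c, sh M (i, 1 - ε i) (j, c) = M (j, c) := fun c =>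
        sh_ne M fun h3 => hji (congrArg Prod.fst h3).symm
      rw [e4, e4, (hom_red hF hM ε j).1, red_apply]
    have e5 : M (i, 1 - ε i) = red ε M i := rfl
    rw [e1, e2, e3, e5]
    ring

section disc

variable {K : Type} [Field K] {n : ℕ}

/-- the coefficients of the quartic polynomials on the lines in the direction `i` -/
noncomputable def lcP (f : MvPolynomial (Fin n) K) (i : Fin n) (k : Fin 5) : MvPolynomial (Fin n) K :=
  ∑ m ∈ f.support with m i = (k : ℕ), C (f.coeff m) * ∏ j ∈ Finset.univ.erase i, X j ^ m j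

/-- the discriminant -/
noncomputable def dcP (f : MvPolynomial (Fin n) K) (i : Fin n) : MvPolynomial (Fin n) K :=
  dc (lcP f i 0) (lcP f i 1) (lcP f i 2) (lcP f i 3) (lcP f i 4)

/-- its value -/
noncomputable def dcl {R : Type} [CommRing R] (f : MvPolynomial (Fin n) R) (y : Fin n → R)
    (i : Fin n) : R :=
  dc (lc f (af y) i 0) (lc f (af y) i 1) (lc f (af y) i 2) (lc f (af y) i 3) (lc f (af y) i 4)

lemma aeval_lcP {R : Type} [CommRing R] [Nontrivial R] [Algebra K R] (f : MvPolynomial (Fin n) K)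
    (i : Fin n) (k : Fin 5) (y : Fin n → R) :
    aeval y (lcP f i k) = lc (map (algebraMap K R) f) (af y) i k := by
  unfold lcP lc
  rw [map_sum, support_map_of_injective f (algebraMap K R).injective]
  refine Finset.sum_congr rfl fun m _ => ?_
  rw [Pool.Agent.Q26.TT.mo_af, coeff_map, map_mul, aeval_C, map_prod]
  congr 1
  refine Finset.prod_congr rfl fun j _ => ?_
  rw [map_pow, aeval_X]

lemma aeval_dcP {R : Type} [CommRing R] [Nontrivial R] [Algebra K R] (f : MvPolynomial (Fin n) K)
    (i : Fin n) (y : Fin n → R) :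
    aeval y (dcP f i) = dcl (map (algebraMap K R) f) y i := by
  unfold dcP dcl
  have := map_dc (aeval y : MvPolynomial (Fin n) K →ₐ[K] R).toRingHom (lcP f i 0) (lcP f i 1)
    (lcP f i 2) (lcP f i 3) (lcP f i 4)
  simp only [AlgHom.toRingHom_eq_coe, RingHom.coe_coe, aeval_lcP] at this
  exact this.symm

lemma eval_dcP (f : MvPolynomial (Fin n) K) (i : Fin n) (y : Fin n → K) :
    eval y (dcP f i) = dcl f y i := by
  have h := aeval_dcP (R := K) f i y
  rw [Algebra.algebraMap_self, map_id, aeval_eq_eval] at h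
  exact h

end disc

open Pool.Agent.H1.TC in
/-- **generic smoothness on special planes** -/
theorem gen_dc {n : ℕ} {F : MvPolynomial (Fin n × Fin 2) ℚ} (hF : Hom4 F) (hs : SmoothF F)
    (ε : Fin n → Fin 2) (z : Fin n → ℚ) (J : Finset (Fin n)) (hsp : SpecF F (pt ε z) J)
    (i : Fin n) (hi : i ∈ J) : ∃ y, OnPl J z y ∧ eval y (dcP (ch F ε) i) ≠ 0 := by
  classical
  by_contra hcon
  push Not at hcon
  have hres : Pool.Agent.Q224.TT.res J z (dcP (ch F ε) i) = 0 := by
    by_contra h
    obtain ⟨y, hy, hy'⟩ := (Pool.Agent.Q224.TT.res_ne_zero).1 h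
    exact hy' (hcon y hy)
  set Ω := Ef (Fin n) with hΩ
  have : CharZero Ω := charZero_of_injective_algebraMap (algebraMap ℚ Ω).injective
  set ηX : Fin n → Ω := fun j => algebraMap (MvPolynomial (Fin n) ℚ) Ω (X j) with hηX
  set η : Fin n → Ω := fun j => if j ∈ J then ηX j else algebraMap ℚ Ω (z j) with hη
  have h1 : aeval η (dcP (ch F ε) i) = 0 := by
    have h2 : aeval ηX (Pool.Agent.Q224.TT.res J z (dcP (ch F ε) i)) =
        aeval η (dcP (ch F ε) i) := by
      unfold Pool.Agent.Q224.TT.res
      rw [← AlgHom.comp_apply]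
      congr 1
      apply MvPolynomial.algHom_ext
      intro l
      rw [AlgHom.comp_apply, aeval_X, aeval_X, hη]
      simp only
      split_ifs
      · rw [aeval_X]
      · rw [aeval_C]
    rw [← h2, hres, map_zero]
  rw [aeval_dcP] at h1
  obtain ⟨x, hx0, hx1, hx2⟩ := exists_double _ h1
  set xx : Fin n → Fin 2 → Ω := Function.update (af η) i x with hxx
  have hlc : lc (map (algebraMap ℚ Ω) (ch F ε)) xx i =
      lc (map (algebraMap ℚ Ω) (ch F ε)) (af η) i := by
    funext k
    unfold lc mo
    refine Finset.sum_congr rfl fun m _ => ?_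
    congr 1
    refine Finset.prod_congr rfl fun j hj => ?_
    rw [hxx, Function.update_of_ne (Finset.ne_of_mem_erase hj)]
  have hxi : xx i = x := by rw [hxx, Function.update_self]
  have hxj : ∀ j, j ≠ i → xx j = af η j := fun j hj => by rw [hxx, Function.update_of_ne hj]
  set Y : Fin n × Fin 2 → Ω := pp ε xx with hY
  have hYj0 : ∀ j, j ≠ i → Y (j, ε j) = 1 := by
    intro j hj
    rw [hY]
    unfold pp
    simp only [if_true, hxj j hj]
    rfl
  have hYj1 : ∀ j, j ≠ i → Y (j, 1 - ε j) = η j := by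
    intro j hj
    rw [hY]
    unfold pp
    simp only [if_neg (fin2_ne (ε j)), hxj j hj]
    rfl
  have hpi : ∀ b, aeval Y (pderiv (i, b) F) = 0 := fun b => by
    refine pd_zero hF ε xx i ?_ ?_ b
    · rw [hlc, hxi]
      exact hx1
    · rw [hlc, hxi]
      exact hx2
  -- the form over the extension
  have hFE : Hom4 (map (algebraMap ℚ Ω) F) := by
    intro m hm j
    exact hF m (support_map_subset _ _ hm) j
  have hev : ∀ G : MvPolynomial (Fin n × Fin 2) ℚ, eval Y (map (algebraMap ℚ Ω) G) = aeval Y G :=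
    fun G => by rw [eval_map, aeval_def]
  have heu : ∀ (k : Fin n) (c : Fin 2), Y (k, c) * aeval Y (pderiv (k, c) F) +
      Y (k, 1 - c) * aeval Y (pderiv (k, 1 - c) F) = 4 * aeval Y F := by
    intro k c
    have := euler_eval hFE k c Y
    rw [pderiv_map, pderiv_map, hev, hev, hev] at this
    exact this
  have hF0 : aeval Y F = 0 := by
    have := heu i 0
    rw [hpi, hpi, mul_zero, mul_zero, add_zero] at this
    have h4 : (4 : Ω) ≠ 0 := by norm_num
    exact (mul_eq_zero.1 this.symm).resolve_left h4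
  -- the other directions of the plane
  have hpj : ∀ j ∈ J, j ≠ i → aeval Y (pderiv (j, 1 - ε j) F) = 0 := by
    intro j hj hji
    obtain ⟨D, hD⟩ := exists_der (Fin n) j
    have h2 := der_eval D Y F
    rw [hF0, map_zero, Finset.sum_eq_single (j, 1 - ε j)] at h2
    · have h3 : D (Y (j, 1 - ε j)) = 1 := by
        rw [hYj1 j hji, hη]
        simp only
        rw [if_pos hj, hηX]
        simp only
        rw [hD, pderiv_X_self, map_one]
      rw [h3, mul_one] at h2
      exact h2.symm
    · rintro ⟨l, b⟩ _ hne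
      by_cases hl : l = i
      · rw [hl, hpi, zero_mul]
      · rcases fin2_cases b (ε l) with rfl | rfl
        · rw [hYj0 l hl, Derivation.map_one_eq_zero, mul_zero]
        · rw [hYj1 l hl, hη]
          simp only
          split_ifs with hlJ
          · rw [hηX]
            simp only
            rw [hD, pderiv_X_of_ne, map_zero, mul_zero]
            rintro rfl
            exact hne rfl
          · rw [Derivation.map_algebraMap, mul_zero]
    · intro h
      exact absurd (Finset.mem_univ _) h
  have hpj' : ∀ j ∈ J, ∀ b, aeval Y (pderiv (j, b) F) = 0 := by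
    intro j hj b
    by_cases hji : j = i
    · rw [hji]
      exact hpi b
    · rcases fin2_cases b (ε j) with rfl | rfl
      · have := heu j (ε j)
        rw [hpj j hj hji, hF0, mul_zero, mul_zero, add_zero, hYj0 j hji, one_mul] at this
        exact this
      · exact hpj j hj hji
  -- the transversal directions
  have hpk : ∀ k, k ∉ J → ∀ b, aeval Y (pderiv (k, b) F) = 0 := by
    intro k hk b
    obtain ⟨c, hc⟩ := spec_ext (K := Ω) hsp k hk b
    have h2 := hc Y fun j hj b' => by
      have hji : j ≠ i := fun h => hj (h ▸ hi)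
      rcases fin2_cases b' (ε j) with rfl | rfl
      · rw [hYj0 j hji]
        simp [Pool.Agent.Q35.TT.pt]
      · rw [hYj1 j hji, hη]
        simp only
        rw [if_neg hj]
        simp [Pool.Agent.Q35.TT.pt, fin2_ne]
    rw [pderiv_map, hev, hev, hF0, mul_zero] at h2
    exact h2
  obtain ⟨⟨j, b⟩, hp⟩ := smooth_all (algebraMap ℚ Ω) hs Y fun j => by
    by_cases hji : j = i
    · by_contra hcon2
      push Not at hcon2
      apply hx0
      funext c
      rw [← hxi, ← hji]
      fin_cases c
      · have := hcon2 (ε j)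
        rw [hY] at this
        unfold pp at this
        simpa using this
      · have := hcon2 (1 - ε j)
        rw [hY] at this
        unfold pp at this
        simpa [fin2_ne] using this
    · exact ⟨ε j, by rw [hYj0 j hji]; exact one_ne_zero⟩
  refine hp ?_
  rw [← aeval_def]
  by_cases hj : j ∈ J
  · exact hpj' j hj b
  · exact hpk j hj b

end Pool.Agent.H1.DC
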