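import Pool.Agent.H1.DC.ClaC
import Pool.Graph.R_pool_sql_team_seeded_3997aac3.Q68.TT.Sal

/-!
# Double covers of `(ℙ¹)ⁿ` over `ℚ`: the real closures
-/

set_option autoImplicit false

open MvPolynomial Pool.Agent.Q35.TT Pool.Agent.Q224.TT Pool.Agent.Y720.MZ Pool.Agent.Y718.X
  Pool.Agent.TH729.SQ Pool.Agent.H581R2 Pool.Agent.Q68.TT.Sal

namespace Pool.Agent.H1.DC

variable {n : ℕ}

/-! ### Nondegenerate points of planes -/

lemma add_single (y : Fin n → ℚ) (i : Fin n) (t : ℚ) :
    y + t • (Pi.single i 1 : Fin n → ℚ) = Function.update y i (y i + t) := by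
  classical
  funext l
  by_cases h : l = i
  · subst h
    simp
  · simp [h]

lemma lk_f {f : MvPolynomial (Fin n) ℚ} (hf : ∀ j, f.degreeOf j ≤ 4) (y : Fin n → ℚ) (i : Fin n) :
    lk f y (Pi.single i 1) = qpol (bq (lc f (af y) i) ![1, y i]) (tay (lc f (af y) i) (y i) 0)
      (tay (lc f (af y) i) (y i) 1) (tay (lc f (af y) i) (y i) 2) (tay (lc f (af y) i) (y i) 3) := by
  refine Polynomial.funext fun t => ?_
  rw [lk_eval, eval_qpol, add_single, ← bq_add, Pool.Agent.Q192.TT.bq_lc f hf]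

lemma mix_add_mem {J : Finset (Fin n)} {i : Fin n} (hi : i ∈ J) (a y : Fin n → ℚ) (t : ℚ) :
    mix J a (y + t • (Pi.single i 1 : Fin n → ℚ)) = mix J a y + t • (Pi.single i 1 : Fin n → ℚ) := by
  classical
  funext l
  unfold mix
  by_cases hl : l ∈ J
  · simp [hl]
  · have hli : l ≠ i := fun h => hl (h ▸ hi)
    simp [hl, hli]

lemma mix_add_not {J : Finset (Fin n)} {i : Fin n} (hi : i ∉ J) (a y : Fin n → ℚ) (t : ℚ) :
    mix J a (y + t • (Pi.single i 1 : Fin n → ℚ)) = mix J a y := by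
  classical
  funext l
  unfold mix
  by_cases hl : l ∈ J
  · have hli : l ≠ i := fun h => hi (h ▸ hl)
    simp [hl, hli]
  · simp [hl]

lemma lk_res_mem (f : MvPolynomial (Fin n) ℚ) {J : Finset (Fin n)} {i : Fin n} (hi : i ∈ J)
    (a y : Fin n → ℚ) :
    lk (res J a f) y (Pi.single i 1) = lk f (mix J a y) (Pi.single i 1) := by
  refine Polynomial.funext fun t => ?_
  rw [lk_eval, lk_eval, eval_res, mix_add_mem hi]

lemma lk_res_not (f : MvPolynomial (Fin n) ℚ) {J : Finset (Fin n)} {i : Fin n} (hi : i ∉ J)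
    (a y : Fin n → ℚ) :
    lk (res J a f) y (Pi.single i 1) = Polynomial.C (eval (mix J a y) f) := by
  refine Polynomial.funext fun t => ?_
  rw [lk_eval, eval_res, mix_add_not hi, Polynomial.eval_C]

/-- chains of directions and nondegenerate points -/
theorem nx_of_chn {f : MvPolynomial (Fin n) ℚ} (hf : ∀ j, f.degreeOf j ≤ 4)
    {J : Finset (Fin n)} {a z : Fin n → ℚ} (hz : OnPl J a z) (h : Chn f z J) :
    NX (res J a f) z := by
  classical
  obtain ⟨r, hr⟩ := h
  set r' : Fin n → ℕ := fun l => if l ∈ J then r l + 1 else 0 with hr'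
  set e : Equiv.Perm (Fin n) := Tuple.sort r' with he
  have hmono : Monotone (r' ∘ e) := Tuple.monotone_sort r'
  refine ⟨fun k => Pi.single (e k) 1, ?_, fun k => ⟨?_, ?_⟩⟩
  · have h2 := (Pi.basisFun ℚ (Fin n)).linearIndependent.comp _ e.injective
    have h3 : (fun k => Pi.single (e k) (1 : ℚ) : Fin n → Fin n → ℚ) =
        (⇑(Pi.basisFun ℚ (Fin n))) ∘ e := by
      funext i
      rw [Function.comp_apply, Pi.basisFun_apply]
    rw [h3]
    exact h2
  · intro y
    by_cases hk : e k ∈ J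
    · rw [lk_res_mem f hk, lk_f hf]
      exact qpol_deg
    · rw [lk_res_not f hk, Polynomial.natDegree_C]
      exact Nat.zero_le _
  · by_cases hk : e k ∈ J
    · right
      obtain ⟨y, w, h1, h2, h3, h4, h5⟩ := hr (e k) hk
      have hyJ : OnPl J a y := by
        intro l hl
        rw [h1 l fun h => hl (Finset.mem_filter.1 h).1]
        exact hz l hl
      refine ⟨fun l => y (e l) - z (e l), fun l hl => ?_, ?_⟩
      · have h6 := hmono hl
        simp only [Function.comp_apply, hr', if_pos hk] at h6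
        change y (e l) - z (e l) = 0
        rw [h1 (e l), sub_self]
        intro h7
        rw [Finset.mem_filter] at h7
        rw [if_pos h7.1] at h6
        omega
      · have hsum : z + ∑ j, (y (e j) - z (e j)) • (Pi.single (e j) 1 : Fin n → ℚ) = y := by
          rw [Equiv.sum_comp e fun i => (y i - z i) • (Pi.single i 1 : Fin n → ℚ)]
          have h9 : ∑ i, (y i - z i) • (Pi.single i 1 : Fin n → ℚ) = y - z := by
            funext l
            rw [Finset.sum_apply, Finset.sum_eq_single l]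
            · simp
            · intro i _ hil
              simp [Pi.single_eq_of_ne hil.symm]
            · intro h
              exact absurd (Finset.mem_univ l) h
          rw [h9, add_sub_cancel]
        rw [hsum, lk_res_mem f hk, mix_eq hyJ, lk_f hf]
        refine inf_of (a := lc f (af y) (e k)) (s := y (e k)) h2 ?_ h4 ?_
        · rw [Pool.Agent.Q192.TT.bq_lc f hf, Function.update_eq_self]
          exact h3
        · intro N hN hT
          refine h5 ⟨N, hN, ?_⟩
          have h10 := (tws2 ℚ (lc f (af y) (e k)) 1 (y (e k)) w N one_ne_zero).1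
          simp only [one_mul] at h10
          exact (h10 hT).2.2
    · left
      intro y
      rw [lk_res_not f hk, Polynomial.natDegree_C]
      exact Nat.zero_le _

lemma mix_mix (J : Finset (Fin n)) (a y d : Fin n → ℚ) :
    mix J a (mix J a y + d) = mix J a (y + d) := by
  funext l
  unfold mix
  by_cases hl : l ∈ J
  · simp [hl]
  · simp [hl]

lemma nx_mix {f : MvPolynomial (Fin n) ℚ} {J : Finset (Fin n)} {a y : Fin n → ℚ}
    (h : NX (res J a f) y) : NX (res J a f) (mix J a y) := by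
  obtain ⟨b, hb, h⟩ := h
  refine ⟨b, hb, fun k => ⟨(h k).1, ?_⟩⟩
  rcases (h k).2 with h2 | ⟨c, hc, hI⟩
  · exact Or.inl h2
  · refine Or.inr ⟨c, hc, ?_⟩
    have e : lk (res J a f) (mix J a y + ∑ j, c j • b j) (b k) =
        lk (res J a f) (y + ∑ j, c j • b j) (b k) := by
      refine Polynomial.funext fun t => ?_
      rw [lk_eval, lk_eval, eval_res, eval_res, add_assoc, add_assoc, mix_mix]
    rw [e]
    exact hI

/-- the nondegenerate rational points over the plane -/
def TP (f : MvPolynomial (Fin n) ℚ) (J : Finset (Fin n)) (a : Fin n → ℚ) :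
    Set (Fin (n + 1) → ℚ) :=
  {u | u ∈ dcN (res J a f) ∧ OnPl J a fun k => u k.succ}

lemma TP_closure (f : MvPolynomial (Fin n) ℚ) (J : Finset (Fin n)) (a : Fin n → ℚ) :
    closure (rl (TP f J a)) =
      closure (rl (dcN (res J a f))) ∩ {x | ∀ k, k ∉ J → x k.succ = (a k : ℝ)} := by
  classical
  have hcl : IsClosed {x : Fin (n + 1) → ℝ | ∀ k, k ∉ J → x k.succ = (a k : ℝ)} := by
    have : {x : Fin (n + 1) → ℝ | ∀ k, k ∉ J → x k.succ = (a k : ℝ)} =
        ⋂ k, ⋂ (_ : k ∉ J), {x : Fin (n + 1) → ℝ | x k.succ = (a k : ℝ)} := by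
      ext x
      simp
    rw [this]
    exact isClosed_iInter fun k => isClosed_iInter fun _ =>
      isClosed_eq (continuous_apply _) continuous_const
  apply Set.Subset.antisymm
  · refine Set.subset_inter (closure_mono ?_) (closure_minimal ?_ hcl)
    · rintro _ ⟨u, hu, rfl⟩
      exact ⟨u, hu.1, rfl⟩
    · rintro _ ⟨u, hu, rfl⟩ k hk
      have := hu.2 k hk
      simp only at this ⊢
      rw [this]
  · rintro x ⟨hx, hx2⟩
    set φ : (Fin (n + 1) → ℝ) → (Fin (n + 1) → ℝ) :=
      fun x => Fin.cons (x 0) fun k => if k ∈ J then x k.succ else (a k : ℝ) with hφ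
    have hφc : Continuous φ := by
      refine continuous_pi fun l => ?_
      refine Fin.cases ?_ (fun k => ?_) l
      · exact continuous_apply 0
      · simp only [hφ, Fin.cons_succ]
        split_ifs
        · exact continuous_apply _
        · exact continuous_const
    have hφx : φ x = x := by
      funext l
      refine Fin.cases rfl (fun k => ?_) l
      simp only [hφ, Fin.cons_succ]
      split_ifs with hk
      · rfl
      · exact (hx2 k hk).symm
    rw [← hφx]
    refine closure_mono ?_ (image_closure_subset_closure_image hφc ⟨x, hx, rfl⟩)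
    rintro _ ⟨_, ⟨u, ⟨h1, h2, h3⟩, rfl⟩, rfl⟩
    refine ⟨Fin.cons (u 0) (mix J a fun k => u k.succ), ⟨⟨h1, ?_, ?_⟩, ?_⟩, ?_⟩
    · change u 0 ^ 2 = eval (mix J a fun k => u k.succ) (res J a f)
      rw [h2, eval_res, eval_res, mix_eq (mix_on J a _)]
    · exact nx_mix h3
    · exact mix_on J a _
    · funext l
      refine Fin.cases rfl (fun k => ?_) l
      simp only [hφ, Fin.cons_succ]
      unfold mix
      split_ifs <;> rfl

lemma TP_SA (f : MvPolynomial (Fin n) ℚ) (J : Finset (Fin n)) (a : Fin n → ℚ) :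
    SA (closure (rl (TP f J a))) := by
  rw [TP_closure]
  refine SA.inter (dcN_SA _) ?_
  have h : SA {x : Fin (n + 1) → ℝ | ∀ k ∈ Jᶜ, x k.succ = (a k : ℝ)} :=
    SAP.forall_mem Jᶜ fun k _ => SAP.eq (PF.coord (Fin.succ k)) (PF.const _)
  simpa using h

lemma aeval_res (J : Finset (Fin n)) (a : Fin n → ℚ) (x : Fin n → ℝ)
    (hx : ∀ k, k ∉ J → x k = (a k : ℝ)) (f : MvPolynomial (Fin n) ℚ) :
    (aeval x (res J a f) : ℝ) = aeval x f := by
  classical
  unfold res
  rw [← AlgHom.comp_apply]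
  congr 1
  apply MvPolynomial.algHom_ext
  intro i
  rw [AlgHom.comp_apply, aeval_X, aeval_X]
  split_ifs with hi
  · rw [aeval_X]
  · rw [aeval_C, hx i hi]
    rfl

lemma TP_mazur (f : MvPolynomial (Fin n) ℚ) (J : Finset (Fin n)) (a : Fin n → ℚ)
    (U : Set (Fin (n + 1) → ℝ)) (hU : ∀ x ∈ U, x 0 ≠ 0 ∧
      x 0 ^ 2 = aeval (fun k => x k.succ) f ∧ ∀ k, k ∉ J → x k.succ = (a k : ℝ))
    (hUc : IsPreconnected U) :
    U ⊆ closure (rl (TP f J a)) ∨ Disjoint U (closure (rl (TP f J a))) := by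
  rw [TP_closure]
  rcases dcN_mazur (res J a f) U (fun x hx => ⟨(hU x hx).1, by
    rw [aeval_res J a _ (hU x hx).2.2]
    exact (hU x hx).2.1⟩) hUc with h | h
  · exact Or.inl fun x hx => ⟨h hx, (hU x hx).2.2⟩
  · exact Or.inr (h.mono_right Set.inter_subset_left)

/-! ### The structure of the closure -/

/-- the rational points off the branch divisor -/
def PP2 (f : MvPolynomial (Fin n) ℚ) : Set (Fin (n + 1) → ℚ) :=
  {u | u 0 ≠ 0 ∧ u 0 ^ 2 = eval (fun k => u k.succ) f}

lemma TP_sub (f : MvPolynomial (Fin n) ℚ) (J : Finset (Fin n)) (a : Fin n → ℚ) :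
    TP f J a ⊆ PP2 f := by
  rintro u ⟨⟨h1, h2, -⟩, h3⟩
  refine ⟨h1, ?_⟩
  rw [h2, eval_res, mix_eq h3]

theorem exists_cover {F : MvPolynomial (Fin n × Fin 2) ℚ} (hF : Hom4 F) (hs : SmoothF F)
    (ε : Fin n → Fin 2) : ∃ (R : Set (Finset (Fin n) × (Fin n → ℚ))) (T : Set (Fin n → ℚ)),
      R.Finite ∧ T.Finite ∧ ∀ u ∈ PP2 (ch F ε), (fun k => u k.succ) ∈ T ∨
        ∃ s ∈ R, (fun k => (u k : ℝ)) ∈ closure (rl (TP (ch F ε) s.1 s.2)) := by
  classical
  obtain ⟨hf, hsm, -, hsp, -⟩ := Pool.Agent.Q182.TT.CHF.chf ℚ n F hF ε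
  set f := ch F ε with hfd
  have hfin : FinSpec f := finSpec hF hs ε
  have hT := tan2 ℚ n f hf (hsm hs)
  -- representatives of the special planes
  have hrep : ∀ J : Finset (Fin n), ∃ R : Set (Fin n → ℚ), R.Finite ∧ (J.Nonempty →
      ∀ z, eval z f ≠ 0 → SpecN f z J → ∃ a ∈ R, OnPl J a z) := by
    intro J
    by_cases hJ : J.Nonempty
    · by_cases hJu : J = Finset.univ
      · refine ⟨{0}, Set.finite_singleton 0, fun _ z _ _ => ⟨0, rfl, fun k hk => ?_⟩⟩
        exact absurd (by rw [hJu]; exact Finset.mem_univ k) hk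
      · have h1 := hfin J hJ hJu
        set v : Set (Fin n → ℚ) → (Fin n → ℚ) := fun P => if h : P.Nonempty then h.some else 0
          with hv
        refine ⟨v '' {P | ∃ z, eval z f ≠ 0 ∧ SpecN f z J ∧ P = {y | OnPl J z y}}, h1.image v,
          fun _ z hz hz' => ⟨_, ⟨_, ⟨z, hz, hz', rfl⟩, rfl⟩, ?_⟩⟩
        have hne : ({y | OnPl J z y} : Set (Fin n → ℚ)).Nonempty := ⟨z, on_refl J z⟩
        rw [hv]
        simp only
        rw [dif_pos hne]
        intro k hk
        exact (hne.some_mem k hk).symm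
    · exact ⟨∅, Set.finite_empty, fun h => absurd h hJ⟩
  choose Rp hRp1 hRp2 using hrep
  refine ⟨⋃ J : Finset (Fin n), (fun a => (J, a)) '' Rp J, {z | ∀ i, TorN f z i}, ?_, hT, ?_⟩
  · exact Set.finite_iUnion fun J => (hRp1 J).image _
  · rintro u ⟨hu0, hu⟩
    by_cases htor : ∀ i, TorN f (fun k => u k.succ) i
    · exact Or.inl htor
    · right
      push Not at htor
      have hgen : ∀ (z : Fin n → ℚ) (J : Finset (Fin n)), SpecN f z J → ∀ i ∈ J,
          ∃ y, OnPl J z y ∧ eval y (dcP f i) ≠ 0 := fun z J h i hi =>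
        gen_dc hF hs ε z J ((hsp z J).1 h) i hi
      have hσ : DenseRange (algebraMap ℚ ℝ) := Rat.denseRange_cast
      obtain ⟨J, hJ, hJs, hnear⟩ := claC hσ hf (hsm hs) hfin hgen hu0 hu htor
      have hz0 : eval (fun k => u k.succ) f ≠ 0 := by
        rw [← hu]
        exact pow_ne_zero 2 hu0
      obtain ⟨a, ha, haz⟩ := hRp2 J hJ _ hz0 hJs
      refine ⟨(J, a), Set.mem_iUnion.2 ⟨J, a, ha, rfl⟩, ?_⟩
      rw [Metric.mem_closure_iff]
      intro δ hδ
      obtain ⟨z', w', hn, hw', hc⟩ := hnear δ hδ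
      have haz' : OnPl J a z' := on_trans (Finset.Subset.refl J) haz hn.2.1
      refine ⟨_, ⟨Fin.cons w' z', ⟨⟨hw', ?_, ?_⟩, haz'⟩, rfl⟩, ?_⟩
      · change w' ^ 2 = eval z' (res J a f)
        rw [eval_res, mix_eq haz', hn.1]
      · exact nx_of_chn hf haz' hc
      · rw [dist_pi_lt_iff hδ]
        intro l
        rw [dist_comm, Real.dist_eq]
        refine Fin.cases ?_ (fun k => ?_) l
        · have := hn.2.2.2
          rw [Real.norm_eq_abs] at this
          simpa using this
        · have := hn.2.2.1 k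
          rw [Real.norm_eq_abs] at this
          simpa using this

end Pool.Agent.H1.DC
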